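import Pool.Agent.Lib_MP_f1937f_nt.SClsB

/-!
# MP_f1937f_nt: the real cyclic subgroups of order `8 m`, existence

`RR (α/(2a)) (β/(2b))`, `a b = 4 m`, and `CL (α/(2a)) (β/(2b))`, `a b = 2 m`, with coprime `a`, `b`.
-/

namespace LT.Sgn

open Polynomial WeierstrassCurve PeriodPair

variable {Λ : PeriodPair} {θ : ℂ →+ Pt (0 : ℂ) (-31 / 4)} {α β : ℝ}

namespace R8

open SClsA

theorem solve {x y : ℤ} (h : IsCoprime x y) (e : ℤ) : ∃ j s : ℤ, e = j * x + y * s := by
  obtain ⟨p, q, hpq⟩ := h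
  exact ⟨e * p, e * q, by linear_combination (-e) * hpq⟩

theorem parity_fix {s t b a u v : ℤ} (h : Odd (b * u + a * v)) :
    Even (s + t) ∨ Even ((s - b * u) + (t - a * v)) := by
  rcases Int.even_or_odd (s + t) with h1 | h1
  · exact Or.inl h1
  · right
    have : (s - b * u) + (t - a * v) = (s + t) - (b * u + a * v) := by ring
    rw [this]
    exact h1.sub_odd h

/-- Chinese remainder theorem, type `RR`. -/
theorem crtR {a b : ℕ} (hc : a.Coprime b) {u v : ℤ} (hu : IsCoprime u a) (hv : IsCoprime v b)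
    (hp : Odd (b * u + a * v : ℤ)) (U V : ℤ) :
    ∃ k s t : ℤ, U = k * u + a * s ∧ V = k * v + b * t ∧ Even (s + t) := by
  obtain ⟨k₀, s₀, h1⟩ := solve hu U
  have hab : IsCoprime (a : ℤ) (b : ℤ) := Nat.isCoprime_iff_coprime.2 hc
  obtain ⟨j, t₀, h2⟩ := solve (hab.mul_left hv) (V - k₀ * v)
  have h3 : U = (k₀ + a * j) * u + a * (s₀ - j * u) := by rw [h1]; ring
  have h4 : V = (k₀ + a * j) * v + b * t₀ := by linear_combination h2
  rcases parity_fix (s := s₀ - j * u) (t := t₀) hp with h5 | h5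
  · exact ⟨_, _, _, h3, h4, h5⟩
  · exact ⟨k₀ + a * j + a * b, _, _, by rw [h3]; ring, by rw [h4]; ring, h5⟩

/-- Chinese remainder theorem, type `CL`. -/
theorem crtC {a b : ℕ} (hc : a.Coprime b) (hab : Odd (a + b)) {u v : ℤ} (hu : IsCoprime u a)
    (hv : IsCoprime v b) (hu2 : Odd u) (hv2 : Odd v) {U V : ℤ} (hUV : Even (U + V)) :
    ∃ k s t : ℤ, U = k * u + 2 * a * s ∧ V = k * v + 2 * b * t ∧ Even (s + t) := by
  have hp : Odd (b * u + a * v : ℤ) := by
    have h0 : Odd ((a : ℤ) + b) := by exact_mod_cast hab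
    rcases Int.even_or_odd (a : ℤ) with ha | ha
    · have hb : Odd (b : ℤ) := by
        rcases Int.even_or_odd (b : ℤ) with hb | hb
        · exact absurd (ha.add hb) (Int.not_even_iff_odd.2 h0)
        · exact hb
      exact (hb.mul hu2).add_even (ha.mul_right v)
    · have hb : Even (b : ℤ) := by
        rcases Int.even_or_odd (b : ℤ) with hb | hb
        · exact hb
        · exact absurd (ha.add_odd hb) (Int.not_even_iff_odd.2 h0)
      rw [add_comm]
      exact (ha.mul hv2).add_even (hb.mul_right u)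
  have hu2a : IsCoprime u (2 * a) := by
    refine IsCoprime.mul_right ?_ hu
    obtain ⟨r, hr⟩ := hu2
    exact ⟨1, -r, by rw [hr]; ring⟩
  obtain ⟨k₀, s₀, h1⟩ := solve hu2a U
  have hab' : IsCoprime (a : ℤ) (b : ℤ) := Nat.isCoprime_iff_coprime.2 hc
  have he : Even (V - k₀ * v) := by
    obtain ⟨r, hr⟩ := hu2
    obtain ⟨r', hr'⟩ := hv2
    obtain ⟨w, hw⟩ := hUV
    refine ⟨w - k₀ * r - a * s₀ - k₀ * r' - k₀, ?_⟩
    have : V = w + w - U := by linear_combination hw
    rw [this, h1, hr, hr']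
    ring
  obtain ⟨e, he⟩ := he
  obtain ⟨j, t₀, h2⟩ := solve (hab'.mul_left hv) e
  have h3 : U = (k₀ + 2 * a * j) * u + 2 * a * (s₀ - j * u) := by rw [h1]; ring
  have h4 : V = (k₀ + 2 * a * j) * v + 2 * b * t₀ := by linear_combination he + 2 * h2
  rcases parity_fix (s := s₀ - j * u) (t := t₀) hp with h5 | h5
  · exact ⟨_, _, _, h3, h4, h5⟩
  · exact ⟨k₀ + 2 * a * j + 2 * a * b, _, _, by rw [h3]; ring, by rw [h4]; ring, h5⟩

theorem mem_RR {a b : ℝ} {z : ℂ} :
    z ∈ RR (α / (2 * a)) (β / (2 * b)) ↔ ∃ s t : ℤ, z = pt α β (s / a) (t / b) := by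
  constructor
  · rintro ⟨s, t, rfl⟩
    refine ⟨s, t, ?_⟩
    unfold pt
    push_cast
    ring
  · rintro ⟨s, t, rfl⟩
    refine ⟨s, t, ?_⟩
    unfold pt
    push_cast
    ring

theorem mem_CL {a b : ℝ} {z : ℂ} :
    z ∈ CL (α / a) (β / b) ↔ ∃ s t : ℤ, Even (s + t) ∧ z = pt α β (s / a) (t / b) := by
  constructor
  · rintro ⟨s, t, h, rfl⟩
    refine ⟨s, t, h, ?_⟩
    unfold pt
    push_cast
    ring
  · rintro ⟨s, t, h, rfl⟩
    refine ⟨s, t, h, ?_⟩
    unfold pt
    push_cast
    ring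

theorem clsR (hθ : IsTh Λ θ) (hα : 0 < α) (hβ : 0 < β)
    (h : ∀ z : ℂ, z ∈ Λ.lattice ↔ z ∈ CL α β) {a b : ℕ} (ha : 0 < a) (hb : 0 < b)
    (hc : a.Coprime b) {u v : ℤ} (hu : IsCoprime u a) (hv : IsCoprime v b)
    (hp : Odd (b * u + a * v : ℤ)) :
    addOrderOf (θ (pt α β (u / a) (v / b))) = 2 * (a * b) ∧
      ∀ z : ℂ, θ z ∈ AddSubgroup.zmultiples (θ (pt α β (u / a) (v / b))) ↔
          z ∈ RR (α / (2 * a)) (β / (2 * b)) := by
  have ha' : (a : ℝ) ≠ 0 := by positivity
  have hb' : (b : ℝ) ≠ 0 := by positivity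
  have haZ : (a : ℤ) ≠ 0 := by exact_mod_cast ha.ne'
  have hbZ : (b : ℤ) ≠ 0 := by exact_mod_cast hb.ne'
  constructor
  · apply Nat.dvd_antisymm
    · apply addOrderOf_dvd_of_nsmul_eq_zero
      rw [← natCast_zsmul, ker_iff hθ hα hβ h ha hb]
      refine ⟨2 * (b * u), 2 * (a * v), ?_, by push_cast; ring, by push_cast; ring⟩
      exact (even_two_mul _).add (even_two_mul _)
    · have h3 : (addOrderOf (θ (pt α β (u / a) (v / b))) : ℤ) •
          θ (pt α β (u / a) (v / b)) = 0 := by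
        rw [natCast_zsmul, addOrderOf_nsmul_eq_zero]
      rw [ker_iff hθ hα hβ h ha hb] at h3
      obtain ⟨s, t, h7, h4, h5⟩ := h3
      obtain ⟨k, hk⟩ := dvd_of_ker hc hu hv h4 h5
      rw [hk] at h4 h5
      push_cast at h4 h5
      have e1 : s = b * k * u := by
        apply mul_left_cancel₀ haZ
        rw [← h4]
        ring
      have e2 : t = a * k * v := by
        apply mul_left_cancel₀ hbZ
        rw [← h5]
        ring
      have hke : Even k := by
        by_contra hko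
        rw [Int.not_even_iff_odd] at hko
        have h8 : s + t = k * (b * u + a * v) := by rw [e1, e2]; ring
        rw [h8] at h7
        exact (Int.not_even_iff_odd.2 (hko.mul hp)) h7
      obtain ⟨r, hr⟩ := hke
      have h8 : ((2 * (a * b) : ℕ) : ℤ) ∣ (addOrderOf (θ (pt α β (u / a) (v / b))) : ℤ) := by
        rw [hk, hr]
        exact ⟨r, by push_cast; ring⟩
      exact_mod_cast h8
  · intro z
    rw [mem_mult hθ h, mem_RR]
    constructor
    · rintro ⟨k, s, t, h3, rfl⟩
      refine ⟨k * u + a * s, k * v + b * t, ?_⟩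
      rw [pt_zsmul, pt_add]
      congr 1 <;> (push_cast; field_simp)
    · rintro ⟨U, V, rfl⟩
      obtain ⟨k, s, t, hU, hV, h4⟩ := crtR hc hu hv hp U V
      refine ⟨k, s, t, h4, ?_⟩
      rw [pt_zsmul, pt_add, hU, hV]
      congr 1 <;> (push_cast; field_simp)

theorem clsC (hθ : IsTh Λ θ) (hα : 0 < α) (hβ : 0 < β)
    (h : ∀ z : ℂ, z ∈ Λ.lattice ↔ z ∈ CL α β) {a b : ℕ} (ha : 0 < a) (hb : 0 < b)
    (hc : a.Coprime b) (hab : Odd (a + b)) {u v : ℤ} (hu : IsCoprime u a) (hv : IsCoprime v b)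
    (hu2 : Odd u) (hv2 : Odd v) :
    addOrderOf (θ (pt α β (u / (2 * a : ℕ)) (v / (2 * b : ℕ)))) = 4 * (a * b) ∧
      ∀ z : ℂ, θ z ∈ AddSubgroup.zmultiples (θ (pt α β (u / (2 * a : ℕ)) (v / (2 * b : ℕ)))) ↔
          z ∈ CL (α / (2 * a)) (β / (2 * b)) := by
  have ha' : (a : ℝ) ≠ 0 := by positivity
  have hb' : (b : ℝ) ≠ 0 := by positivity
  have haZ : (a : ℤ) ≠ 0 := by exact_mod_cast ha.ne'
  have hbZ : (b : ℤ) ≠ 0 := by exact_mod_cast hb.ne'
  have h0 : Odd ((a : ℤ) + b) := by exact_mod_cast hab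
  have hp : Odd (b * u + a * v : ℤ) := by
    rcases Int.even_or_odd (a : ℤ) with ha | ha
    · have hb : Odd (b : ℤ) := by
        rcases Int.even_or_odd (b : ℤ) with hb | hb
        · exact absurd (ha.add hb) (Int.not_even_iff_odd.2 h0)
        · exact hb
      exact (hb.mul hu2).add_even (ha.mul_right v)
    · have hb : Even (b : ℤ) := by
        rcases Int.even_or_odd (b : ℤ) with hb | hb
        · exact hb
        · exact absurd (ha.add_odd hb) (Int.not_even_iff_odd.2 h0)
      rw [add_comm]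
      exact (ha.mul hv2).add_even (hb.mul_right u)
  constructor
  · apply Nat.dvd_antisymm
    · apply addOrderOf_dvd_of_nsmul_eq_zero
      rw [← natCast_zsmul, ker_iff hθ hα hβ h (by omega) (by omega)]
      refine ⟨2 * (b * u), 2 * (a * v), ?_, by push_cast; ring, by push_cast; ring⟩
      exact (even_two_mul _).add (even_two_mul _)
    · have h3 : (addOrderOf (θ (pt α β (u / (2 * a : ℕ)) (v / (2 * b : ℕ)))) : ℤ) •
          θ (pt α β (u / (2 * a : ℕ)) (v / (2 * b : ℕ))) = 0 := by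
        rw [natCast_zsmul, addOrderOf_nsmul_eq_zero]
      rw [ker_iff hθ hα hβ h (by omega) (by omega)] at h3
      obtain ⟨s, t, h7, h4, h5⟩ := h3
      obtain ⟨n, hn⟩ : ∃ n : ℤ, n = (addOrderOf (θ (pt α β (u / (2 * a : ℕ)) (v / (2 * b : ℕ)))) : ℤ) :=
        ⟨_, rfl⟩
      rw [← hn] at h4 h5
      push_cast at h4 h5
      -- `n` is even
      have hn2 : Even n := by
        by_contra hno
        rw [Int.not_even_iff_odd] at hno
        have h8 := hno.mul hu2
        rw [h4] at h8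
        apply Int.not_even_iff_odd.2 h8
        rw [mul_assoc]
        exact even_two_mul _
      obtain ⟨n', hn'⟩ := hn2
      have h4' : n' * u = a * s := by
        have : 2 * (n' * u) = 2 * (a * s) := by
          rw [hn'] at h4
          linear_combination h4
        exact mul_left_cancel₀ two_ne_zero this
      have h5' : n' * v = b * t := by
        have : 2 * (n' * v) = 2 * (b * t) := by
          rw [hn'] at h5
          linear_combination h5
        exact mul_left_cancel₀ two_ne_zero this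
      obtain ⟨k, hk⟩ := dvd_of_ker hc hu hv h4' h5'
      rw [hk] at h4' h5'
      push_cast at h4' h5'
      have e1 : s = b * k * u := by
        apply mul_left_cancel₀ haZ
        rw [← h4']
        ring
      have e2 : t = a * k * v := by
        apply mul_left_cancel₀ hbZ
        rw [← h5']
        ring
      have hke : Even k := by
        by_contra hko
        rw [Int.not_even_iff_odd] at hko
        have h8 : s + t = k * (b * u + a * v) := by rw [e1, e2]; ring
        rw [h8] at h7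
        exact (Int.not_even_iff_odd.2 (hko.mul hp)) h7
      obtain ⟨r, hr⟩ := hke
      have h8 : ((4 * (a * b) : ℕ) : ℤ) ∣
          (addOrderOf (θ (pt α β (u / (2 * a : ℕ)) (v / (2 * b : ℕ)))) : ℤ) := by
        rw [← hn, hn', hk, hr]
        exact ⟨r, by push_cast; ring⟩
      exact_mod_cast h8
  · intro z
    rw [mem_mult hθ h, mem_CL]
    constructor
    · rintro ⟨k, s, t, h3, rfl⟩
      refine ⟨k * u + 2 * a * s, k * v + 2 * b * t, ?_, ?_⟩
      · have h9 : Even (k * (u + v)) := (hu2.add_odd hv2).mul_left k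
        have : k * u + 2 * a * s + (k * v + 2 * b * t) = k * (u + v) + 2 * (a * s + b * t) := by ring
        rw [this]
        exact h9.add (even_two_mul _)
      · rw [pt_zsmul, pt_add]
        congr 1 <;> (push_cast; field_simp)
    · rintro ⟨U, V, hUV, rfl⟩
      obtain ⟨k, s, t, hU, hV, h4⟩ := crtC hc hab hu hv hu2 hv2 hUV
      refine ⟨k, s, t, h4, ?_⟩
      rw [pt_zsmul, pt_add, hU, hV]
      congr 1 <;> (push_cast; field_simp)

end R8

end LT.Sgn
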