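import Pool.Agent.Lib_MP_f1937f_r8.ClsA

/-!
# MP_f1937f_nt: the real cyclic subgroups of order `8 m`, classification
-/

namespace LT.Sgn

open Polynomial WeierstrassCurve PeriodPair

variable {Λ : PeriodPair} {θ : ℂ →+ Pt (0 : ℂ) (-31 / 4)} {α β : ℝ}

namespace R8

open SClsA

theorem coprime_of_mul {x y n m : ℕ} (h : x * y = n) (hn : ∃ e, n = 2 ^ e) (hm : Odd m) :
    x.Coprime m ∧ y.Coprime m := by
  obtain ⟨e, he⟩ := hn
  have h2 : Nat.Coprime n m := by
    rw [he]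
    exact Nat.Coprime.pow_left e (Nat.coprime_two_left.2 hm)
  exact ⟨Nat.Coprime.coprime_dvd_left ⟨y, h.symm⟩ h2,
    Nat.Coprime.coprime_dvd_left ⟨x, by rw [← h, mul_comm]⟩ h2⟩

theorem splitR (hθ : IsTh Λ θ) (hα : 0 < α) (hβ : 0 < β)
    (h : ∀ z : ℂ, z ∈ Λ.lattice ↔ z ∈ CL α β) {m : ℕ} (hm : Odd m) {U V c : ℤ}
    (d1 : (m : ℤ) ∣ U * (1 - c)) (d2 : (m : ℤ) ∣ V * (1 + c))
    (hg : ∀ d : ℕ, d ∣ m → (d : ℤ) ∣ U → (d : ℤ) ∣ V → d = 1) {a₀ b₀ : ℕ} (hab : a₀ * b₀ = 4)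
    (hco : a₀.Coprime b₀) (hU : IsCoprime U a₀) (hV : IsCoprime V b₀)
    (hp : Odd (b₀ * U + a₀ * V : ℤ)) :
    ∃ p ∈ PP (4 * m), ∀ z : ℂ,
      θ z ∈ AddSubgroup.zmultiples (θ (pt α β (U / (a₀ * m : ℕ)) (V / (b₀ * m : ℕ)))) ↔
        z ∈ RR (α / (2 * p.1)) (β / (2 * p.2)) := by
  obtain ⟨m₁, m₂, hmm, hcop, u', v', rfl, rfl, hu', hv'⟩ := num_split hm d1 d2 hg
  have ho1 : Odd m₁ := by rw [← hmm] at hm; exact (Nat.odd_mul.1 hm).1
  have ho2 : Odd m₂ := by rw [← hmm] at hm; exact (Nat.odd_mul.1 hm).2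
  have h1p := ho1.pos
  have h2p := ho2.pos
  have ha0 : 0 < a₀ := by rcases Nat.eq_zero_or_pos a₀ with h0 | h0; · simp [h0] at hab
                          · exact h0
  have hb0 : 0 < b₀ := by rcases Nat.eq_zero_or_pos b₀ with h0 | h0; · simp [h0] at hab
                          · exact h0
  obtain ⟨c1, c2⟩ := coprime_of_mul hab ⟨2, rfl⟩ ho1
  obtain ⟨c3, c4⟩ := coprime_of_mul hab ⟨2, rfl⟩ ho2
  have hab' : (a₀ * m₁).Coprime (b₀ * m₂) :=
    Nat.Coprime.mul_left (Nat.Coprime.mul_right hco c3) (Nat.Coprime.mul_right c2.symm hcop)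
  have key := (clsR hθ hα hβ h (a := a₀ * m₁) (b := b₀ * m₂) (by positivity) (by positivity) hab'
    (u := u') (v := v') (by
      push_cast
      exact IsCoprime.mul_right (IsCoprime.of_mul_left_right hU) hu') (by
      push_cast
      exact IsCoprime.mul_right (IsCoprime.of_mul_left_right hV) hv') (by
      have : ((b₀ * m₂ : ℕ) : ℤ) * u' + ((a₀ * m₁ : ℕ) : ℤ) * v' =
          b₀ * (m₂ * u') + a₀ * (m₁ * v') := by push_cast; ring
      rw [this]
      exact hp)).2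
  have hm1 : (m₁ : ℝ) ≠ 0 := by positivity
  have hm2 : (m₂ : ℝ) ≠ 0 := by positivity
  have ha' : (a₀ : ℝ) ≠ 0 := by positivity
  have hb' : (b₀ : ℝ) ≠ 0 := by positivity
  have e1 : (((m₂ : ℤ) * u' : ℤ) : ℝ) / ((a₀ * m : ℕ) : ℝ) = u' / ((a₀ * m₁ : ℕ) : ℝ) := by
    rw [← hmm]
    push_cast
    field_simp
  have e2 : (((m₁ : ℤ) * v' : ℤ) : ℝ) / ((b₀ * m : ℕ) : ℝ) = v' / ((b₀ * m₂ : ℕ) : ℝ) := by
    rw [← hmm]
    push_cast
    field_simp
  refine ⟨(a₀ * m₁, b₀ * m₂), ?_, ?_⟩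
  · rw [PP, Finset.mem_filter, Nat.mem_divisorsAntidiagonal]
    refine ⟨⟨?_, by have := hm.pos; omega⟩, hab'⟩
    change a₀ * m₁ * (b₀ * m₂) = 4 * m
    rw [← hab, ← hmm]
    ring
  · intro z
    rw [e1, e2]
    exact key z

theorem splitC (hθ : IsTh Λ θ) (hα : 0 < α) (hβ : 0 < β)
    (h : ∀ z : ℂ, z ∈ Λ.lattice ↔ z ∈ CL α β) {m : ℕ} (hm : Odd m) {U V c : ℤ}
    (d1 : (m : ℤ) ∣ U * (1 - c)) (d2 : (m : ℤ) ∣ V * (1 + c))
    (hg : ∀ d : ℕ, d ∣ m → (d : ℤ) ∣ U → (d : ℤ) ∣ V → d = 1) {a₀ b₀ : ℕ} (hab : a₀ * b₀ = 2)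
    (hU : Odd U) (hV : Odd V) :
    ∃ p ∈ PP (2 * m), ∀ z : ℂ,
      θ z ∈ AddSubgroup.zmultiples (θ (pt α β (U / (2 * (a₀ * m) : ℕ)) (V / (2 * (b₀ * m) : ℕ)))) ↔
        z ∈ CL (α / (2 * p.1)) (β / (2 * p.2)) := by
  obtain ⟨m₁, m₂, hmm, hcop, u', v', rfl, rfl, hu', hv'⟩ := num_split hm d1 d2 hg
  have ho1 : Odd m₁ := by rw [← hmm] at hm; exact (Nat.odd_mul.1 hm).1
  have ho2 : Odd m₂ := by rw [← hmm] at hm; exact (Nat.odd_mul.1 hm).2
  have h1p := ho1.pos
  have h2p := ho2.pos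
  have ha0 : 0 < a₀ := by rcases Nat.eq_zero_or_pos a₀ with h0 | h0; · simp [h0] at hab
                          · exact h0
  have hb0 : 0 < b₀ := by rcases Nat.eq_zero_or_pos b₀ with h0 | h0; · simp [h0] at hab
                          · exact h0
  have hcases : (a₀ = 1 ∧ b₀ = 2) ∨ (a₀ = 2 ∧ b₀ = 1) := by
    have h1 : a₀ ≤ 2 := Nat.le_of_dvd (by norm_num) ⟨b₀, hab.symm⟩
    interval_cases a₀ <;> omega
  obtain ⟨c1, c2⟩ := coprime_of_mul hab ⟨1, rfl⟩ ho1
  obtain ⟨c3, c4⟩ := coprime_of_mul hab ⟨1, rfl⟩ ho2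
  have hco : a₀.Coprime b₀ := by rcases hcases with ⟨rfl, rfl⟩ | ⟨rfl, rfl⟩ <;> decide
  have hab' : (a₀ * m₁).Coprime (b₀ * m₂) :=
    Nat.Coprime.mul_left (Nat.Coprime.mul_right hco c3) (Nat.Coprime.mul_right c2.symm hcop)
  have hu2 : Odd u' := (Int.odd_mul.1 hU).2
  have hv2 : Odd v' := (Int.odd_mul.1 hV).2
  have two : ∀ {w : ℤ}, Odd w → ∀ {k : ℕ}, (k = 1 ∨ k = 2) → IsCoprime w k := by
    rintro w ⟨r, hr⟩ k (rfl | rfl)
    · exact ⟨0, 1, by norm_num⟩
    · exact ⟨1, -r, by rw [hr]; push_cast; ring⟩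
  have key := (clsC hθ hα hβ h (a := a₀ * m₁) (b := b₀ * m₂) (by positivity) (by positivity) hab'
    (by
      rcases hcases with ⟨rfl, rfl⟩ | ⟨rfl, rfl⟩
      · rw [one_mul]
        exact ho1.add_even (even_two_mul _)
      · rw [one_mul]
        exact (even_two_mul _).add_odd ho2)
    (u := u') (v := v') (by
      push_cast
      exact IsCoprime.mul_right (two hu2 (by tauto)) hu') (by
      push_cast
      exact IsCoprime.mul_right (two hv2 (by tauto)) hv') hu2 hv2).2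
  have hm1 : (m₁ : ℝ) ≠ 0 := by positivity
  have hm2 : (m₂ : ℝ) ≠ 0 := by positivity
  have ha' : (a₀ : ℝ) ≠ 0 := by positivity
  have hb' : (b₀ : ℝ) ≠ 0 := by positivity
  have e1 : (((m₂ : ℤ) * u' : ℤ) : ℝ) / ((2 * (a₀ * m) : ℕ) : ℝ) =
      u' / ((2 * (a₀ * m₁) : ℕ) : ℝ) := by
    rw [← hmm]
    push_cast
    field_simp
  have e2 : (((m₁ : ℤ) * v' : ℤ) : ℝ) / ((2 * (b₀ * m) : ℕ) : ℝ) =
      v' / ((2 * (b₀ * m₂) : ℕ) : ℝ) := by
    rw [← hmm]
    push_cast
    field_simp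
  refine ⟨(a₀ * m₁, b₀ * m₂), ?_, ?_⟩
  · rw [PP, Finset.mem_filter, Nat.mem_divisorsAntidiagonal]
    refine ⟨⟨?_, by have := hm.pos; omega⟩, hab'⟩
    change a₀ * m₁ * (b₀ * m₂) = 2 * m
    rw [← hab, ← hmm]
    ring
  · intro z
    rw [e1, e2]
    exact key z

/-- Classification of the real cyclic subgroups of order `8 m`. -/
theorem clsB_eight (hθ : IsTh Λ θ) (hα : 0 < α) (hβ : 0 < β)
    (h : ∀ z : ℂ, z ∈ Λ.lattice ↔ z ∈ CL α β) {m : ℕ} (hm : Odd m)
    {L : AddSubgroup (Pt (0 : ℂ) (-31 / 4))} (hL : L ∈ CycL (0 : ℂ) (-31 / 4) (8 * m))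
    (hcj : L.map cj = L) :
    (∃ p ∈ PP (4 * m), ∀ z : ℂ, θ z ∈ L ↔ z ∈ RR (α / (2 * p.1)) (β / (2 * p.2))) ∨
    (∃ p ∈ PP (2 * m), ∀ z : ℂ, θ z ∈ L ↔ z ∈ CL (α / (2 * p.1)) (β / (2 * p.2))) := by
  have hm0 : 0 < m := hm.pos
  have hmR : (m : ℝ) ≠ 0 := by exact_mod_cast hm0.ne'
  obtain ⟨u, v, c, huv, hLe, hord, hc⟩ := SClsB.gen hθ h (n := 8 * m) (by omega) hL hcj
  obtain ⟨s, t, hst, h1, h2⟩ := SClsB.conj_rel hθ hα hβ h hc
  -- integer relations
  have r1 : u * (1 - c) = 8 * m * s := by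
    have : (u : ℝ) * (1 - c) = 8 * m * s := by
      rw [← h1]
      push_cast
      field_simp
    exact_mod_cast this
  have r2 : v * (1 + c) = 8 * m * t := by
    have : (v : ℝ) * (1 + c) = 8 * m * t := by
      rw [← h2]
      push_cast
      field_simp
    exact_mod_cast this
  -- `c` is odd
  have hcodd : Odd c := by
    obtain ⟨W, hW⟩ : ∃ W, W = θ (((α * (u / (8 * m : ℕ)) : ℝ) +
      (β * (v / (8 * m : ℕ)) : ℝ) * Complex.I) / 2) := ⟨_, rfl⟩
    rw [← hW] at hc hord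
    have hcc : (c * c - 1) • W = 0 := by
      have h3 : c • (c • W) = W := by
        rw [hc, ← map_zsmul, hc, cj_cj]
      rw [sub_smul, one_smul, mul_smul, h3, sub_self]
    have h3 : ((8 * m : ℕ) : ℤ) ∣ c * c - 1 := by
      rw [← hord]
      exact addOrderOf_dvd_iff_zsmul_eq_zero.2 hcc
    have h4 : (2 : ℤ) ∣ c * c - 1 := by
      refine dvd_trans ?_ h3
      push_cast
      exact ⟨4 * m, by ring⟩
    by_contra h5
    rw [Int.not_odd_iff_even] at h5
    have h6 : (2 : ℤ) ∣ c * c := dvd_mul_of_dvd_left h5.two_dvd _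
    omega
  -- the order is not smaller
  have hsmall : ∀ k : ℕ, 0 < k → k < 8 * m → ∀ s' t' : ℤ, Even (s' + t') → k * u = 8 * m * s' →
      k * v = 8 * m * t' → False := by
    intro k hk0 hk s' t' hev hks hkt
    have h0 := SClsB.smul_zero_of (θ := θ) (x := (u : ℝ) / (8 * m : ℕ)) (y := (v : ℝ) / (8 * m : ℕ))
      (k := (k : ℤ)) (s := s') (t := t') hθ h hev
      (by
        have : (k : ℝ) * u = 8 * m * s' := by exact_mod_cast hks
        push_cast
        rw [← mul_div_assoc, this]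
        field_simp)
      (by
        have : (k : ℝ) * v = 8 * m * t' := by exact_mod_cast hkt
        push_cast
        rw [← mul_div_assoc, this]
        field_simp)
    rw [natCast_zsmul] at h0
    have h3 := addOrderOf_dvd_of_nsmul_eq_zero h0
    rw [hord] at h3
    have := Nat.le_of_dvd hk0 h3
    omega
  have hmZ : Odd (m : ℤ) := by exact_mod_cast hm
  have hmZ0 : (m : ℤ) ≠ 0 := by exact_mod_cast hm0.ne'
  -- the gcd condition
  have hgg : ∀ x y : ℤ, ∀ e f : ℤ, u = 2 * e * x → v = 2 * f * y → (Even (e + f) ∨ True) →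
      ∀ d : ℕ, d ∣ m → (d : ℤ) ∣ x → (d : ℤ) ∣ y → d = 1 := by
    rintro x y e f hx hy - d ⟨m', hm'⟩ ⟨x', hx'⟩ ⟨y', hy'⟩
    by_contra hd1
    have hd0 : 0 < d := by
      rcases Nat.eq_zero_or_pos d with h0 | h0
      · rw [h0, zero_mul] at hm'
        omega
      · exact h0
    have hm'0 : 0 < m' := by
      rcases Nat.eq_zero_or_pos m' with h0 | h0
      · rw [h0, mul_zero] at hm'
        omega
      · exact h0
    have hmZ' : (m : ℤ) = d * m' := by exact_mod_cast hm'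
    refine hsmall (8 * m') (by omega) ?_ (2 * (e * x')) (2 * (f * y'))
      ((even_two_mul _).add (even_two_mul _)) ?_ ?_
    · have : 2 * m' ≤ d * m' := Nat.mul_le_mul_right _ (by omega)
      omega
    · rw [hx, hx', hmZ']
      push_cast
      ring
    · rw [hy, hy', hmZ']
      push_cast
      ring
  obtain ⟨c', hc'⟩ := hcodd
  rcases Int.even_or_odd' c' with ⟨e, he | he⟩
  · -- `c = 4 e + 1`
    have hce : c = 4 * e + 1 := by rw [hc', he]; ring
    have a1 : u * e = -(2 * (m * s)) := by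
      rw [hce] at r1
      have : 4 * (u * e) = 4 * (-(2 * (m * s))) := by linear_combination (-1) * r1
      exact mul_left_cancel₀ (by norm_num) this
    have a2 : v * (2 * e + 1) = 4 * (m * t) := by
      rw [hce] at r2
      have : 2 * (v * (2 * e + 1)) = 2 * (4 * (m * t)) := by linear_combination r2
      exact mul_left_cancel₀ (by norm_num) this
    have a3 : (4 : ℤ) ∣ v := by
      have h3 : IsCoprime (4 : ℤ) (2 * e + 1) := by
        refine ⟨e * e, 1 - 2 * e, ?_⟩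
        ring
      exact h3.dvd_of_dvd_mul_right ⟨_, a2⟩
    obtain ⟨v₁, hv₁⟩ := a3
    have hue : Even u := by
      rcases Int.even_or_odd u with h3 | h3
      · exact h3
      · exfalso
        have h4 : Even v := ⟨2 * v₁, by rw [hv₁]; ring⟩
        exact (Int.not_even_iff_odd.2 (h3.add_even h4)) huv
    obtain ⟨u₁, hu₁⟩ := hue
    have hu₁' : u = 2 * u₁ := by rw [hu₁]; ring
    have hu1o : Odd u₁ := by
      by_contra h3
      rw [Int.not_odd_iff_even] at h3
      obtain ⟨w, hw⟩ := h3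
      refine hsmall (4 * m) (by omega) (by omega) u₁ (2 * v₁) ?_ ?_ ?_
      · exact (Even.add ⟨w, hw⟩ (even_two_mul _))
      · rw [hu₁']; push_cast; ring
      · rw [hv₁]; push_cast; ring
    have b1 : u₁ * e = -(m * s) := by
      rw [hu₁'] at a1
      have : 2 * (u₁ * e) = 2 * (-(m * s)) := by linear_combination a1
      exact mul_left_cancel₀ (by norm_num) this
    have b2 : v₁ * (2 * e + 1) = m * t := by
      rw [hv₁] at a2
      have : 4 * (v₁ * (2 * e + 1)) = 4 * (m * t) := by linear_combination a2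
      exact mul_left_cancel₀ (by norm_num) this
    have d1 : (m : ℤ) ∣ u₁ * (1 - c) := by
      rw [hce]
      exact ⟨4 * s, by linear_combination (-4) * b1⟩
    rcases Int.even_or_odd v₁ with hv1 | hv1
    · left
      obtain ⟨v₂, hv₂⟩ := hv1
      have hv₂' : v₁ = 2 * v₂ := by rw [hv₂]; ring
      have d2 : (m : ℤ) ∣ v₂ * (1 + c) := by
        rw [hce]
        exact ⟨t, by rw [← b2, hv₂']; ring⟩
      have hg := hgg u₁ v₂ 1 4 (by rw [hu₁']; ring) (by rw [hv₁, hv₂']; ring) (Or.inr trivial)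
      have key := splitR hθ hα hβ h hm d1 d2 hg (a₀ := 4) (b₀ := 1) (by norm_num) (by decide)
        (by
          obtain ⟨r, hr⟩ := hu1o
          refine ⟨1 - 2 * r, r * r, ?_⟩
          rw [hr]
          push_cast
          ring)
        ⟨0, 1, by norm_num⟩
        (by
          have : (((1 : ℕ) : ℤ) * u₁ + ((4 : ℕ) : ℤ) * v₂) = u₁ + 2 * (2 * v₂) := by push_cast; ring
          rw [this]
          exact hu1o.add_even (even_two_mul _))
      obtain ⟨p, hp, hz⟩ := key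
      refine ⟨p, hp, fun z => ?_⟩
      rw [← hz, hLe]
      have E1 : (u : ℝ) / ((8 * m : ℕ) : ℝ) = u₁ / ((4 * m : ℕ) : ℝ) := by
        rw [hu₁']
        push_cast
        field_simp
        ring
      have E2 : (v : ℝ) / ((8 * m : ℕ) : ℝ) = v₂ / ((1 * m : ℕ) : ℝ) := by
        rw [hv₁, hv₂']
        push_cast
        field_simp
        ring
      rw [E1, E2]
      rfl
    · right
      have d2 : (m : ℤ) ∣ v₁ * (1 + c) := by
        rw [hce]
        exact ⟨2 * t, by linear_combination 2 * b2⟩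
      have hg := hgg u₁ v₁ 1 2 (by rw [hu₁']; ring) (by rw [hv₁]; ring) (Or.inr trivial)
      have key := splitC hθ hα hβ h hm d1 d2 hg (a₀ := 2) (b₀ := 1) (by norm_num) hu1o hv1
      obtain ⟨p, hp, hz⟩ := key
      refine ⟨p, hp, fun z => ?_⟩
      rw [← hz, hLe]
      have E1 : (u : ℝ) / ((8 * m : ℕ) : ℝ) = u₁ / ((2 * (2 * m) : ℕ) : ℝ) := by
        rw [hu₁']
        push_cast
        field_simp
        ring
      have E2 : (v : ℝ) / ((8 * m : ℕ) : ℝ) = v₁ / ((2 * (1 * m) : ℕ) : ℝ) := by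
        rw [hv₁]
        push_cast
        field_simp
        ring
      rw [E1, E2]
      rfl
  · -- `c = 4 e + 3`
    have hce : c = 4 * e + 3 := by rw [hc', he]; ring
    have a1 : v * (e + 1) = 2 * (m * t) := by
      rw [hce] at r2
      have : 4 * (v * (e + 1)) = 4 * (2 * (m * t)) := by linear_combination r2
      exact mul_left_cancel₀ (by norm_num) this
    have a2 : u * (2 * e + 1) = -(4 * (m * s)) := by
      rw [hce] at r1
      have : 2 * (u * (2 * e + 1)) = 2 * (-(4 * (m * s))) := by linear_combination (-1) * r1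
      exact mul_left_cancel₀ (by norm_num) this
    have a3 : (4 : ℤ) ∣ u := by
      have h3 : IsCoprime (4 : ℤ) (2 * e + 1) := by
        refine ⟨e * e, 1 - 2 * e, ?_⟩
        ring
      refine h3.dvd_of_dvd_mul_right ⟨-(m * s), ?_⟩
      rw [a2]
      ring
    obtain ⟨u₁, hu₁⟩ := a3
    have hve : Even v := by
      rcases Int.even_or_odd v with h3 | h3
      · exact h3
      · exfalso
        have h4 : Even u := ⟨2 * u₁, by rw [hu₁]; ring⟩
        exact (Int.not_even_iff_odd.2 (h4.add_odd h3)) huv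
    obtain ⟨v₁, hv₁⟩ := hve
    have hv₁' : v = 2 * v₁ := by rw [hv₁]; ring
    have hv1o : Odd v₁ := by
      by_contra h3
      rw [Int.not_odd_iff_even] at h3
      obtain ⟨w, hw⟩ := h3
      refine hsmall (4 * m) (by omega) (by omega) (2 * u₁) v₁ ?_ ?_ ?_
      · exact (Even.add (even_two_mul _) ⟨w, hw⟩)
      · rw [hu₁]; push_cast; ring
      · rw [hv₁']; push_cast; ring
    have b1 : v₁ * (e + 1) = m * t := by
      rw [hv₁'] at a1
      have : 2 * (v₁ * (e + 1)) = 2 * (m * t) := by linear_combination a1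
      exact mul_left_cancel₀ (by norm_num) this
    have b2 : u₁ * (2 * e + 1) = -(m * s) := by
      rw [hu₁] at a2
      have : 4 * (u₁ * (2 * e + 1)) = 4 * (-(m * s)) := by linear_combination a2
      exact mul_left_cancel₀ (by norm_num) this
    have d2 : (m : ℤ) ∣ v₁ * (1 + c) := by
      rw [hce]
      exact ⟨4 * t, by linear_combination 4 * b1⟩
    rcases Int.even_or_odd u₁ with hu1 | hu1
    · left
      obtain ⟨u₂, hu₂⟩ := hu1
      have hu₂' : u₁ = 2 * u₂ := by rw [hu₂]; ring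
      have d1 : (m : ℤ) ∣ u₂ * (1 - c) := by
        rw [hce]
        exact ⟨s, by
          have : u₂ * (1 - (4 * e + 3)) = -(2 * u₂ * (2 * e + 1)) := by ring
          rw [this, ← hu₂', b2]
          ring⟩
      have hg := hgg u₂ v₁ 4 1 (by rw [hu₁, hu₂']; ring) (by rw [hv₁']; ring) (Or.inr trivial)
      have key := splitR hθ hα hβ h hm d1 d2 hg (a₀ := 1) (b₀ := 4) (by norm_num) (by decide)
        ⟨0, 1, by norm_num⟩
        (by
          obtain ⟨r, hr⟩ := hv1o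
          refine ⟨1 - 2 * r, r * r, ?_⟩
          rw [hr]
          push_cast
          ring)
        (by
          have : (((4 : ℕ) : ℤ) * u₂ + ((1 : ℕ) : ℤ) * v₁) = 2 * (2 * u₂) + v₁ := by push_cast; ring
          rw [this]
          exact (even_two_mul _).add_odd hv1o)
      obtain ⟨p, hp, hz⟩ := key
      refine ⟨p, hp, fun z => ?_⟩
      rw [← hz, hLe]
      have E1 : (u : ℝ) / ((8 * m : ℕ) : ℝ) = u₂ / ((1 * m : ℕ) : ℝ) := by
        rw [hu₁, hu₂']
        push_cast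
        field_simp
        ring
      have E2 : (v : ℝ) / ((8 * m : ℕ) : ℝ) = v₁ / ((4 * m : ℕ) : ℝ) := by
        rw [hv₁']
        push_cast
        field_simp
        ring
      rw [E1, E2]
      rfl
    · right
      have d1 : (m : ℤ) ∣ u₁ * (1 - c) := by
        rw [hce]
        exact ⟨2 * s, by linear_combination (-2) * b2⟩
      have hg := hgg u₁ v₁ 2 1 (by rw [hu₁]; ring) (by rw [hv₁']; ring) (Or.inr trivial)
      have key := splitC hθ hα hβ h hm d1 d2 hg (a₀ := 1) (b₀ := 2) (by norm_num) hu1 hv1o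
      obtain ⟨p, hp, hz⟩ := key
      refine ⟨p, hp, fun z => ?_⟩
      rw [← hz, hLe]
      have E1 : (u : ℝ) / ((8 * m : ℕ) : ℝ) = u₁ / ((2 * (1 * m) : ℕ) : ℝ) := by
        rw [hu₁]
        push_cast
        field_simp
        ring
      have E2 : (v : ℝ) / ((8 * m : ℕ) : ℝ) = v₁ / ((2 * (2 * m) : ℕ) : ℝ) := by
        rw [hv₁']
        push_cast
        field_simp
        ring
      rw [E1, E2]
      rfl

end R8

end LT.Sgn
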