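import Pool.Agent.Lib_MP_f1937f_nt.LocMain
import Pool.Agent.Lib_MP_f1937f_nt.CorePrime

/-!
# MP_f1937f_nt: the residue conditions
-/

namespace LT

open Polynomial WeierstrassCurve

namespace R8

/-- `(d / p) = sgn d` for all `0 < |d| ≤ D`. -/
def Good (D p : ℕ) : Prop := ∀ d : ℤ, d ≠ 0 → d.natAbs ≤ D → jacobiSym d p = Int.sign d

/-- If `8 ∣ n` then a prime with reduction data is `7 mod 8`. -/
theorem eight_mod {p : ℕ} [Fact p.Prime] (h5 : 5 ≤ p) (h3 : p % 3 = 2) {n : ℕ} (hn : 0 < n)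
    (h8 : 8 ∣ n) {j : ℚ} {L : AddSubgroup (Pt (0 : Fb p) (-31 / 4))} (hL : RedL p n j L) :
    p % 8 = 7 := by
  obtain ⟨T, hT, hLT⟩ := hL.cyc
  obtain ⟨e, he⟩ := h8
  have he0 : e ≠ 0 := by
    rintro rfl
    omega
  have hP : addOrderOf (e • T) = 8 := by
    rw [addOrderOf_nsmul_of_dvd he0 (by rw [hT, he]; exact Dvd.intro_left 8 rfl), hT, he]
    exact Nat.mul_div_cancel _ (Nat.pos_of_ne_zero he0)
  have hTL : T ∈ L := by
    rw [hLT]
    exact AddSubgroup.mem_zmultiples T
  have hF := hL.frob T hTL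
  rw [hLT, AddSubgroup.mem_zmultiples_iff] at hF
  obtain ⟨c, hc⟩ := hF
  have h1 : F0 p (e • T) = c • (e • T) := by
    rw [map_nsmul, ← hc, smul_comm]
  have h2 : F0 p (F0 p (e • T)) = -(p • (e • T)) := F0_sq h5 h3 _
  rw [h1, map_zsmul, h1] at h2
  have h4 : (c * c + (p : ℤ)) • (e • T) = 0 := by
    rw [add_smul, mul_smul, h2, natCast_zsmul, neg_add_cancel]
  have h6 : (8 : ℤ) ∣ c * c + p := by
    have := addOrderOf_dvd_iff_zsmul_eq_zero.2 h4
    rw [hP] at this
    exact_mod_cast this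
  have hp : p.Prime := Fact.out
  have hpo : p % 2 = 1 := by
    rcases hp.eq_two_or_odd with h7 | h7
    · omega
    · exact h7
  have hco : c % 2 = 1 := by
    rcases Int.emod_two_eq_zero_or_one c with h7 | h7
    · exfalso
      obtain ⟨r, hr⟩ : ∃ r, c = 2 * r := ⟨c / 2, by omega⟩
      rw [hr] at h6
      have h8 : (2 : ℤ) ∣ 2 * r * (2 * r) + p := dvd_trans (by norm_num) h6
      have h9 : (2 : ℤ) ∣ (p : ℤ) := by
        have : (2 : ℤ) ∣ 2 * r * (2 * r) := ⟨r * (2 * r), by ring⟩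
        exact (Int.dvd_add_right this).1 h8
      omega
    · exact h7
  have hcc : (8 : ℤ) ∣ c * c - 1 := by
    obtain ⟨r, hr⟩ : ∃ r, c = 2 * r + 1 := ⟨c / 2, by omega⟩
    rw [hr]
    have h7 : (2 : ℤ) ∣ r * (r + 1) := (Int.even_mul_succ_self r).two_dvd
    obtain ⟨w, hw⟩ := h7
    exact ⟨w, by linear_combination 4 * hw⟩
  omega

/-- The residue conditions from the conditions at the odd primes. -/
theorem good_of {p D : ℕ} (_hp : p.Prime) (h8 : p % 8 = 7)
    (hq : ∀ q : ℕ, q.Prime → q ≠ 2 → q ≤ D → jacobiSym (-(p : ℤ)) q = 1) : Good D p := by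
  have hpodd : Odd p := Nat.odd_iff.2 (by omega)
  have hm1 : jacobiSym (-1) p = -1 := by
    rw [jacobiSym.at_neg_one hpodd]
    rw [ZMod.χ₄_nat_three_mod_four (by omega)]
  have h2 : jacobiSym 2 p = 1 := by
    rw [jacobiSym.at_two hpodd, ZMod.χ₈_nat_eq_if_mod_eight]
    rw [if_neg (by omega), if_pos (by omega)]
  have hprime : ∀ q : ℕ, q.Prime → q ≤ D → jacobiSym (q : ℤ) p = 1 := by
    intro q hqp hqD
    rcases eq_or_ne q 2 with rfl | hq2
    · exact_mod_cast h2
    · have hqo : Odd q := hqp.odd_of_ne_two hq2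
      have h3 := hq q hqp hq2 hqD
      have h4 : jacobiSym (-(p : ℤ)) q = jacobiSym (-1) q * jacobiSym (p : ℤ) q := by
        rw [← jacobiSym.mul_left, neg_one_mul]
      rw [h4, jacobiSym.at_neg_one hqo] at h3
      have hpp : Odd (p / 2) := Nat.odd_iff.2 (by omega)
      have e1 : (-1 : ℤ) ^ (q / 2 * (p / 2)) = ZMod.χ₄ (q : ZMod 4) := by
        rw [ZMod.χ₄_eq_neg_one_pow (Nat.odd_iff.1 hqo), mul_comm, pow_mul, hpp.neg_one_pow]
      rw [jacobiSym.quadratic_reciprocity hqo hpodd, e1]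
      exact h3
  have hnat : ∀ d : ℕ, 0 < d → d ≤ D → jacobiSym (d : ℤ) p = 1 := by
    intro d
    induction d using Nat.strong_induction_on with
    | _ d ih =>
      intro hd hdD
      rcases eq_or_ne d 1 with rfl | hd1
      · simp
      · have hmf := Nat.minFac_prime hd1
        obtain ⟨e, he⟩ := Nat.minFac_dvd d
        have he0 : 0 < e := by
          rcases Nat.eq_zero_or_pos e with h0 | h0
          · rw [h0, mul_zero] at he
            omega
          · exact h0
        have hed : e < d := by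
          have := hmf.two_le
          nlinarith
        have h1 : jacobiSym ((d.minFac : ℕ) : ℤ) p = 1 :=
          hprime _ hmf ((Nat.minFac_le hd).trans hdD)
        have h2 := ih e hed he0 (hed.le.trans hdD)
        rw [he]
        push_cast
        rw [jacobiSym.mul_left, h1, h2, one_mul]
  intro d hd hdD
  rcases lt_or_gt_of_ne hd with h | h
  · have h1 : d = -1 * ((d.natAbs : ℕ) : ℤ) := by omega
    rw [Int.sign_eq_neg_one_of_neg h, h1, jacobiSym.mul_left, hm1,
      hnat d.natAbs (Int.natAbs_pos.2 hd) hdD, mul_one]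
  · have h1 : d = ((d.natAbs : ℕ) : ℤ) := by omega
    rw [Int.sign_eq_one_of_pos h, h1]
    exact hnat d.natAbs (Int.natAbs_pos.2 hd) hdD

end R8

end LT
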