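import Pool.Agent.Lib_MP_f1937f_nt.SLim
import Pool.Agent.Lib_MP_f1937f_nt.SFun

/-!
# MP_f1937f_nt: `J1 ≤ 1728 ≤ J2`
-/

namespace LT.Sgn.R8

open Filter Topology UpperHalfPlane ModularForm

/-- `E_k` is real where `q` is real. -/
theorem E_real {k : ℕ} (hk : 3 ≤ k) (hk2 : Even k) {τ : ℍ} {q : ℝ}
    (hq : Function.Periodic.qParam 1 τ = (q : ℂ)) : ∃ r : ℝ, E hk τ = (r : ℂ) := by
  have h1 : Complex.exp (2 * Real.pi * Complex.I * τ) = (q : ℂ) := by
    rw [← hq, Function.Periodic.qParam]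
    congr 1
    push_cast
    ring
  refine ⟨1 - (2 * k / _root_.bernoulli k) *
    ∑' n : ℕ+, (ArithmeticFunction.sigma (k - 1) n : ℝ) * q ^ ((n : ℕ) : ℤ), ?_⟩
  rw [EisensteinSeries.q_expansion_bernoulli hk hk2 τ, h1]
  push_cast
  rfl

theorem jt_sub {τ : ℍ} {q : ℝ} (hq : Function.Periodic.qParam 1 τ = (q : ℂ)) :
    ∃ b : ℝ, (jt τ).re - 1728 = b ^ 2 / (ModularForm.discriminant τ).re ∧
      (ModularForm.discriminant τ).re ≠ 0 := by
  obtain ⟨a, ha⟩ := E_real (k := 4) (by norm_num) ⟨2, rfl⟩ hq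
  obtain ⟨b, hb⟩ := E_real (k := 6) (by norm_num) ⟨3, rfl⟩ hq
  have hΔ := ModularForm.discriminant_eq_E₄_cube_sub_E₆_sq τ
  have hΔ0 := ModularForm.discriminant_ne_zero τ
  have ha' : E₄ τ = (a : ℂ) := ha
  have hb' : E₆ τ = (b : ℂ) := hb
  rw [ha', hb'] at hΔ
  have hΔr : ModularForm.discriminant τ = (((a ^ 3 - b ^ 2) / 1728 : ℝ) : ℂ) := by
    rw [hΔ]
    push_cast
    ring
  have hD : (ModularForm.discriminant τ).re = (a ^ 3 - b ^ 2) / 1728 := by
    rw [hΔr, Complex.ofReal_re]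
  have hD0 : (a ^ 3 - b ^ 2) / 1728 ≠ 0 := by
    intro h0
    rw [hΔr, h0] at hΔ0
    exact hΔ0 (by simp)
  refine ⟨b, ?_, by rw [hD]; exact hD0⟩
  have hj : jt τ = ((a ^ 3 / ((a ^ 3 - b ^ 2) / 1728) : ℝ) : ℂ) := by
    unfold jt
    rw [ha', hΔr]
    push_cast
    rfl
  have h0 : a ^ 3 - b ^ 2 ≠ 0 := by
    intro h
    exact hD0 (by rw [h, zero_div])
  rw [hj, Complex.ofReal_re, hD]
  field_simp
  ring

theorem sign_lem {J f : ℝ → ℝ} (hf : ContinuousOn f (Set.Ioi 0)) (hne : ∀ y, 0 < y → f y ≠ 0)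
    (hJ : ∀ y, 0 < y → ∃ b : ℝ, J y - 1728 = b ^ 2 / f y) (hlim : Tendsto J atTop atTop) :
    ∀ y, 0 < y → 1728 ≤ J y := by
  have hpos : ∀ y, 0 < y → 0 < f y := by
    intro y₀ hy₀
    by_contra hcon
    have hneg : f y₀ < 0 := lt_of_le_of_ne (not_lt.1 hcon) (hne y₀ hy₀)
    obtain ⟨y₁, h1, h2⟩ := ((hlim.eventually_gt_atTop 1728).and (eventually_ge_atTop y₀)).exists
    have hy₁ : 0 < y₁ := lt_of_lt_of_le hy₀ h2
    have hf1 : 0 < f y₁ := by
      obtain ⟨b, hb⟩ := hJ y₁ hy₁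
      by_contra hc
      have h3 : f y₁ < 0 := lt_of_le_of_ne (not_lt.1 hc) (hne y₁ hy₁)
      have h4 : b ^ 2 / f y₁ ≤ 0 := div_nonpos_of_nonneg_of_nonpos (sq_nonneg b) h3.le
      linarith
    have hsub : Set.Icc y₀ y₁ ⊆ Set.Ioi (0 : ℝ) := fun z hz => lt_of_lt_of_le hy₀ hz.1
    obtain ⟨z, hz, hz0⟩ := intermediate_value_Icc h2 (hf.mono hsub) (⟨hneg.le, hf1.le⟩ :
      (0 : ℝ) ∈ Set.Icc (f y₀) (f y₁))
    exact hne z (hsub hz) hz0
  intro y hy
  obtain ⟨b, hb⟩ := hJ y hy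
  have := div_nonneg (sq_nonneg b) (hpos y hy).le
  linarith

theorem J2_ge {y : ℝ} (hy : 0 < y) : 1728 ≤ J2 y := by
  have hcont : ContinuousOn (fun y : ℝ => if h : 0 < y then
      (ModularForm.discriminant (up 0 h)).re else 0) (Set.Ioi 0) := by
    rw [continuousOn_iff_continuous_domRestrict]
    have : (Set.Ioi (0:ℝ)).domRestrict (fun y : ℝ => if h : 0 < y then
        (ModularForm.discriminant (up 0 h)).re else 0) =
        fun y => (ModularForm.discriminant (up 0 y.2)).re := by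
      funext y
      show (if h : 0 < y.1 then (ModularForm.discriminant (up 0 h)).re else 0) = _
      rw [dif_pos (show (0:ℝ) < y.1 from y.2)]
    rw [this]
    have h2 : Continuous (fun τ : ℍ => ModularForm.discriminant τ) :=
      (CuspFormClass.holo CuspForm.discriminant).continuous
    exact Complex.continuous_re.comp (h2.comp (SLim.up_cont _))
  refine sign_lem hcont ?_ ?_ J2_lim y hy
  · intro z hz
    rw [dif_pos hz]
    obtain ⟨b, -, h⟩ := jt_sub (SLim.q_zero hz)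
    exact h
  · intro z hz
    obtain ⟨b, h, -⟩ := jt_sub (SLim.q_zero hz)
    refine ⟨b, ?_⟩
    rw [dif_pos hz, ← h]
    unfold J2
    rw [dif_pos hz]

theorem J1_le {y : ℝ} (hy : 0 < y) : J1 y ≤ 1728 := by
  have hcont : ContinuousOn (fun y : ℝ => if h : 0 < y then
      -(ModularForm.discriminant (up (1 / 2) (half_pos h))).re else 0) (Set.Ioi 0) := by
    rw [continuousOn_iff_continuous_domRestrict]
    have : (Set.Ioi (0:ℝ)).domRestrict (fun y : ℝ => if h : 0 < y then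
        -(ModularForm.discriminant (up (1 / 2) (half_pos h))).re else 0) =
        fun y => -(ModularForm.discriminant (up (1 / 2) (half_pos y.2))).re := by
      funext y
      show (if h : 0 < y.1 then -(ModularForm.discriminant (up (1 / 2) (half_pos h))).re else 0) = _
      rw [dif_pos (show (0:ℝ) < y.1 from y.2)]
    rw [this]
    have h2 : Continuous (fun τ : ℍ => ModularForm.discriminant τ) :=
      (CuspFormClass.holo CuspForm.discriminant).continuous
    exact (Complex.continuous_re.comp (h2.comp (SLim.up_half_cont _))).neg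
  have key := sign_lem (J := fun y => 3456 - J1 y) hcont ?_ ?_ ?_ y hy
  · linarith
  · intro z hz
    rw [dif_pos hz]
    obtain ⟨b, -, h⟩ := jt_sub (SLim.q_half hz)
    exact neg_ne_zero.2 h
  · intro z hz
    obtain ⟨b, h, -⟩ := jt_sub (SLim.q_half hz)
    refine ⟨b, ?_⟩
    rw [dif_pos hz]
    have h3 : J1 z = (jt (up (1 / 2) (half_pos hz))).re := by
      unfold J1
      rw [dif_pos hz]
    rw [div_neg, ← h, h3]
    ring
  · exact tendsto_atTop_add_const_left _ _ (tendsto_neg_atBot_atTop.comp J1_lim)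

end LT.Sgn.R8
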