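import Pool.Agent.Lib_MP_f1937f_nt.Sign
import Pool.Agent.Lib_MP_f1937f_r8.ClsB
import Pool.Agent.Lib_MP_f1937f_r8.JSign

/-!
# MP_f1937f_nt: the sign of `N_n`, `n = 8 M 7^k`
-/

namespace LT

open Polynomial WeierstrassCurve PeriodPair

namespace Sgn.R8

open Sgn SClsA

theorem pos_of_PP {m : ℕ} {p : ℕ × ℕ} (hp : p ∈ PP m) : 0 < p.1 ∧ 0 < p.2 := by
  obtain ⟨h1, h2, h3⟩ := PP_mem hp
  constructor
  · rcases Nat.eq_zero_or_pos p.1 with h0 | h0
    · exact absurd (by rw [← h1, h0, zero_mul]) h3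
    · exact h0
  · rcases Nat.eq_zero_or_pos p.2 with h0 | h0
    · exact absurd (by rw [← h1, h0, mul_zero]) h3
    · exact h0

theorem RR_ne_CL {a b c d : ℝ} (_ha : 0 < a) (_hb : 0 < b) (hc : 0 < c) (hd : 0 < d) :
    RR a b ≠ CL c d := by
  intro h
  have re_im : ∀ x y : ℝ, ((x : ℂ) + (y : ℝ) * Complex.I).re = x ∧
      ((x : ℂ) + (y : ℝ) * Complex.I).im = y := by
    intro x y
    simp
  -- `(c + i d) / 2` is in `CL`
  have h1 : (((c * (1 : ℤ) : ℝ) + (d * (1 : ℤ) : ℝ) * Complex.I) / 2 : ℂ) ∈ CL c d :=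
    ⟨1, 1, by decide, rfl⟩
  rw [← h] at h1
  obtain ⟨u, v, huv⟩ := h1
  have e1 : (((c * (1 : ℤ) : ℝ) + (d * (1 : ℤ) : ℝ) * Complex.I) / 2 : ℂ) =
      ((c / 2 : ℝ) : ℂ) + ((d / 2 : ℝ) : ℝ) * Complex.I := by
    push_cast
    ring
  rw [e1] at huv
  have hre := congrArg Complex.re huv
  have him := congrArg Complex.im huv
  rw [(re_im _ _).1, (re_im _ _).1] at hre
  rw [(re_im _ _).2, (re_im _ _).2] at him
  -- `a` is in `RR`
  have h2 : (((a * (1 : ℤ) : ℝ) : ℂ) + (b * (0 : ℤ) : ℝ) * Complex.I) ∈ RR a b := ⟨1, 0, rfl⟩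
  rw [h] at h2
  obtain ⟨s, t, hst, h3⟩ := h2
  have e2 : (((c * (s : ℤ) : ℝ) + (d * (t : ℤ) : ℝ) * Complex.I) / 2 : ℂ) =
      ((c * s / 2 : ℝ) : ℂ) + ((d * t / 2 : ℝ) : ℝ) * Complex.I := by
    push_cast
    ring
  rw [e2] at h3
  have hre' := congrArg Complex.re h3
  have him' := congrArg Complex.im h3
  rw [(re_im _ _).1, (re_im _ _).1] at hre'
  rw [(re_im _ _).2, (re_im _ _).2] at him'
  have ht : t = 0 := by
    have : d * (t : ℝ) = 0 := by
      push_cast at him'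
      linarith
    rcases mul_eq_zero.1 this with h4 | h4
    · exact absurd h4 hd.ne'
    · exact_mod_cast h4
  rw [ht, add_zero] at hst
  obtain ⟨r, hr⟩ := hst
  -- `c / 2 = a u`, `a = c s / 2 = c r`
  have h5 : a = c * r := by
    rw [hr] at hre'
    push_cast at hre'
    linarith
  have h6 : c / 2 = c * (r * u) := by
    rw [hre, h5]
    ring
  have h7 : (1 : ℝ) = 2 * (r * u) := by
    have : c * (1 / 2) = c * (r * u) := by linarith
    have := mul_left_cancel₀ hc.ne' this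
    linarith
  have h8 : (1 : ℤ) = 2 * (r * u) := by exact_mod_cast h7
  omega

open Classical in
theorem fix_eight {Λ : PeriodPair} {θ : ℂ →+ Pt (0 : ℂ) (-31 / 4)} {α β : ℝ} (hθ : IsTh Λ θ)
    (hα : 0 < α) (hβ : 0 < β) (h : ∀ z : ℂ, z ∈ Λ.lattice ↔ z ∈ CL α β) {m : ℕ} (hm : Odd m)
    (j : ℝ) (hne : ∀ L ∈ CycL (0 : ℂ) (-31 / 4) (8 * m), jL 0 (-31 / 4) L ≠ (j : ℂ)) :
    ((∀ p ∈ PP (4 * m), J2 (β / α * p.1 / p.2) ≠ j) ∧
      (∀ p ∈ PP (2 * m), J1 (β / α * p.1 / p.2) ≠ j)) ∧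
    ∃ r : ℝ, 0 < r ∧
      NN ℂ (j : ℂ) (8 * m) = ((r * ((∏ p ∈ PP (4 * m), (j - J2 (β / α * p.1 / p.2))) *
        ∏ p ∈ PP (2 * m), (j - J1 (β / α * p.1 / p.2))) : ℝ) : ℂ) := by
  have hm0 : 0 < m := hm.pos
  have hdisj : Disjoint (PP (4 * m)) (PP (2 * m)) := by
    rw [Finset.disjoint_left]
    intro p h1 h2
    have e1 := (PP_mem h1).1
    have e2 := (PP_mem h2).1
    omega
  obtain ⟨S, hS⟩ : ∃ S : ℕ × ℕ → Set ℂ, S = fun p => if p.1 * p.2 = 4 * m then
    RR (α / (2 * p.1)) (β / (2 * p.2)) else CL (α / (2 * p.1)) (β / (2 * p.2)) := ⟨_, rfl⟩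
  obtain ⟨y, hy⟩ : ∃ y : ℕ × ℕ → ℝ, y = fun p => if p.1 * p.2 = 4 * m then
    J2 (β / α * p.1 / p.2) else J1 (β / α * p.1 / p.2) := ⟨_, rfl⟩
  have hS4 : ∀ p ∈ PP (4 * m), S p = RR (α / (2 * p.1)) (β / (2 * p.2)) := by
    intro p hp
    rw [hS]
    simp only
    rw [if_pos (PP_mem hp).1]
  have hS2 : ∀ p ∈ PP (2 * m), S p = CL (α / (2 * p.1)) (β / (2 * p.2)) := by
    intro p hp
    rw [hS]
    simp only
    rw [if_neg (by rw [(PP_mem hp).1]; omega)]
  have hy4 : ∀ p ∈ PP (4 * m), y p = J2 (β / α * p.1 / p.2) := by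
    intro p hp
    rw [hy]
    simp only
    rw [if_pos (PP_mem hp).1]
  have hy2 : ∀ p ∈ PP (2 * m), y p = J1 (β / α * p.1 / p.2) := by
    intro p hp
    rw [hy]
    simp only
    rw [if_neg (by rw [(PP_mem hp).1]; omega)]
  have posR : ∀ {n : ℕ} {p : ℕ × ℕ}, p ∈ PP n → (0 : ℝ) < 2 * p.1 ∧ (0 : ℝ) < 2 * p.2 := by
    intro n p hp
    obtain ⟨h1, h2⟩ := pos_of_PP hp
    have h1' : (0 : ℝ) < p.1 := by exact_mod_cast h1
    have h2' : (0 : ℝ) < p.2 := by exact_mod_cast h2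
    constructor <;> linarith
  have key := fix_prod hθ (n := 8 * m) (by omega) (PP (4 * m) ∪ PP (2 * m)) S y j ?_ ?_ ?_ ?_ hne
  · obtain ⟨k1, r, hr, k2⟩ := key
    refine ⟨⟨fun p hp => ?_, fun p hp => ?_⟩, r, hr, ?_⟩
    · rw [← hy4 p hp]
      exact k1 p (Finset.mem_union_left _ hp)
    · rw [← hy2 p hp]
      exact k1 p (Finset.mem_union_right _ hp)
    · rw [k2, Finset.prod_union hdisj]
      congr 3
      · exact Finset.prod_congr rfl fun p hp => by rw [hy4 p hp]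
      · exact Finset.prod_congr rfl fun p hp => by rw [hy2 p hp]
  · intro L hL hcj
    rcases clsB_eight hθ hα hβ h hm hL hcj with ⟨p, hp, hz⟩ | ⟨p, hp, hz⟩
    · exact ⟨p, Finset.mem_union_left _ hp, fun z => by rw [hS4 p hp]; exact hz z⟩
    · exact ⟨p, Finset.mem_union_right _ hp, fun z => by rw [hS2 p hp]; exact hz z⟩
  · intro p hp
    rcases Finset.mem_union.1 hp with hp | hp
    · obtain ⟨h1, h2, -⟩ := PP_mem hp
      obtain ⟨hp1, hp2⟩ := pos_of_PP hp
      have hodd : Odd (p.2 + p.1) := by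
        -- exactly one of the factors is even
        rcases Nat.even_or_odd p.1 with h3 | h3
        · rcases Nat.even_or_odd p.2 with h4 | h4
          · exfalso
            have := Nat.eq_one_of_dvd_coprimes h2 h3.two_dvd h4.two_dvd
            omega
          · exact h4.add_even h3
        · rcases Nat.even_or_odd p.2 with h4 | h4
          · exact h4.add_odd h3
          · exfalso
            have h5 := h3.mul h4
            rw [h1] at h5
            apply Nat.not_even_iff_odd.2 h5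
            exact ⟨2 * m, by ring⟩
      have kk := clsR hθ hα hβ h hp1 hp2 h2 (u := 1) (v := 1) isCoprime_one_left isCoprime_one_left
        (by
          rw [mul_one, mul_one]
          exact_mod_cast hodd)
      rw [hS4 p hp]
      refine ⟨_, ⟨_, kk.1.trans (by rw [h1]; ring), rfl⟩, ?_, kk.2⟩
      exact stable_of hθ (lat_conj h) kk.2 fun z hz => Sgn.RR_conj hz
    · obtain ⟨h1, h2, -⟩ := PP_mem hp
      obtain ⟨hp1, hp2⟩ := pos_of_PP hp
      have hodd : Odd (p.1 + p.2) := by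
        rcases Nat.even_or_odd p.1 with h3 | h3
        · rcases Nat.even_or_odd p.2 with h4 | h4
          · exfalso
            have := Nat.eq_one_of_dvd_coprimes h2 h3.two_dvd h4.two_dvd
            omega
          · exact h3.add_odd h4
        · rcases Nat.even_or_odd p.2 with h4 | h4
          · exact h3.add_even h4
          · exfalso
            have h5 := h3.mul h4
            rw [h1] at h5
            apply Nat.not_even_iff_odd.2 h5
            exact ⟨m, by ring⟩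
      have kk := clsC hθ hα hβ h hp1 hp2 h2 hodd (u := 1) (v := 1) isCoprime_one_left
        isCoprime_one_left (by decide) (by decide)
      rw [hS2 p hp]
      refine ⟨_, ⟨_, kk.1.trans (by rw [h1]; ring), rfl⟩, ?_, kk.2⟩
      exact stable_of hθ (lat_conj h) kk.2 fun z hz => Sgn.CL_conj hz
  · intro p hp q hq hpq
    rcases Finset.mem_union.1 hp with hp | hp <;> rcases Finset.mem_union.1 hq with hq | hq
    · rw [hS4 p hp, hS4 q hq] at hpq
      obtain ⟨a1, a2⟩ := posR hp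
      obtain ⟨b1, b2⟩ := posR hq
      obtain ⟨e1, e2⟩ := RR_inj (div_pos hα a1) (div_pos hβ a2) (div_pos hα b1) (div_pos hβ b2) hpq
      rw [div_eq_div_iff a1.ne' b1.ne'] at e1
      rw [div_eq_div_iff a2.ne' b2.ne'] at e2
      have e3 := mul_left_cancel₀ two_ne_zero (mul_left_cancel₀ hα.ne' e1)
      have e4 := mul_left_cancel₀ two_ne_zero (mul_left_cancel₀ hβ.ne' e2)
      apply Prod.ext
      · exact_mod_cast e3.symm
      · exact_mod_cast e4.symm
    · rw [hS4 p hp, hS2 q hq] at hpq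
      obtain ⟨a1, a2⟩ := posR hp
      obtain ⟨b1, b2⟩ := posR hq
      exact absurd hpq (RR_ne_CL (div_pos hα a1) (div_pos hβ a2) (div_pos hα b1) (div_pos hβ b2))
    · rw [hS2 p hp, hS4 q hq] at hpq
      obtain ⟨a1, a2⟩ := posR hp
      obtain ⟨b1, b2⟩ := posR hq
      exact absurd hpq.symm
        (RR_ne_CL (div_pos hα b1) (div_pos hβ b2) (div_pos hα a1) (div_pos hβ a2))
    · rw [hS2 p hp, hS2 q hq] at hpq
      obtain ⟨a1, a2⟩ := posR hp
      obtain ⟨b1, b2⟩ := posR hq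
      obtain ⟨e1, e2⟩ := CL_inj (div_pos hα a1) (div_pos hβ a2) (div_pos hα b1) (div_pos hβ b2) hpq
      rw [div_eq_div_iff a1.ne' b1.ne'] at e1
      rw [div_eq_div_iff a2.ne' b2.ne'] at e2
      have e3 := mul_left_cancel₀ two_ne_zero (mul_left_cancel₀ hα.ne' e1)
      have e4 := mul_left_cancel₀ two_ne_zero (mul_left_cancel₀ hβ.ne' e2)
      apply Prod.ext
      · exact_mod_cast e3.symm
      · exact_mod_cast e4.symm
  · intro p hp Λ' hΛ'
    rcases Finset.mem_union.1 hp with hp | hp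
    · obtain ⟨a1, a2⟩ := posR hp
      rw [hS4 p hp] at hΛ'
      rw [hy4 p hp, jj_RR (div_pos hα a1) (div_pos hβ a2) hΛ']
      have a1' : (p.1 : ℝ) ≠ 0 := by intro h0; rw [h0] at a1; simp at a1
      have a2' : (p.2 : ℝ) ≠ 0 := by intro h0; rw [h0] at a2; simp at a2
      congr 2
      field_simp
    · obtain ⟨a1, a2⟩ := posR hp
      rw [hS2 p hp] at hΛ'
      rw [hy2 p hp, jj_CL (div_pos hα a1) (div_pos hβ a2) hΛ']
      have a1' : (p.1 : ℝ) ≠ 0 := by intro h0; rw [h0] at a1; simp at a1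
      have a2' : (p.2 : ℝ) ≠ 0 := by intro h0; rw [h0] at a2; simp at a2
      congr 2
      field_simp

end Sgn.R8

open Sgn Sgn.R8

/-- The sign theorem for `n = 8 M 7^k`. -/
theorem sign_eight (j : ℝ) (hj : j ≠ 1728) :
    ∃ lo hi : ℝ, 1 ≤ lo ∧ lo < hi ∧
      ∀ M k : ℕ, Odd M → ¬ 7 ∣ M → 11 ∣ M → lo < 7 ^ k / (M : ℝ) → 7 ^ k / (M : ℝ) < hi →
        (∀ L ∈ CycL (0 : ℂ) (-31 / 4) (8 * (M * 7 ^ k)), jL 0 (-31 / 4) L ≠ (j : ℂ)) →
        ∃ r : ℝ, r < 0 ∧ NN ℂ (j : ℂ) (8 * (M * 7 ^ k)) = (r : ℂ) := by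
  obtain ⟨Λ, α, β, hα, hβ, hαβ, hg2, hg3, hlat, -⟩ := hex_exists
  obtain ⟨θ, hθ, -⟩ := th_exists Λ (a := (0 : ℂ)) (b := -31 / 4) (by rw [hg2]; simp) (by rw [hg3])
  have hs3 : 0 < Real.sqrt 3 := Real.sqrt_pos.2 (by norm_num)
  have hs31 : 1 ≤ Real.sqrt 3 := by
    rw [Real.one_le_sqrt]
    norm_num
  have hτ : β / α = Real.sqrt 3 ∨ β / α = 1 / Real.sqrt 3 := by
    rcases hαβ with h | h
    · left
      rw [h, mul_div_assoc, div_self hα.ne', mul_one]
    · right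
      rw [h]
      field_simp
  have hτ0 : 0 < β / α := div_pos hβ hα
  have hpos : ∀ {m : ℕ} {p : ℕ × ℕ}, p ∈ PP m → 0 < β / α * p.1 / p.2 := by
    intro m p hp
    obtain ⟨h1, h2⟩ := pos_of_PP hp
    have a1' : (0 : ℝ) < p.1 := by exact_mod_cast h1
    have a2' : (0 : ℝ) < p.2 := by exact_mod_cast h2
    positivity
  rcases lt_or_gt_of_ne hj with hlt | hgt
  · obtain ⟨ylo, yhi, h1, h2, h3, h4⟩ := win_bot J1_cont J1_lim (j := j) (by rw [J1_one]; exact hlt)
    refine ⟨2 * (Real.sqrt 3 * ylo), 2 * (Real.sqrt 3 * yhi), by nlinarith,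
      mul_lt_mul_of_pos_left (mul_lt_mul_of_pos_left h2 hs3) two_pos, ?_⟩
    intro M k hM h7 h11 hlo hhi hne
    have hM0 : (0 : ℝ) < M := by exact_mod_cast hM.pos
    have hM1 : 1 < M := lt_of_lt_of_le (by norm_num) (Nat.le_of_dvd hM.pos h11)
    have hm : Odd (M * 7 ^ k) := hM.mul (Odd.pow (by decide))
    have h72 : ¬ 7 ∣ 2 * M := by omega
    have hdiv : (7 : ℝ) ^ k / ((2 * M : ℕ) : ℝ) = 7 ^ k / (M : ℝ) / 2 := by
      push_cast
      field_simp
    obtain ⟨p₀, hp₀, ⟨w1, w2⟩, w3⟩ := comb hτ h1 (yhi := yhi) (M := 2 * M) (k := k) (by omega) h72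
      (by rw [hdiv]; linarith) (by rw [hdiv]; linarith)
    rw [mul_assoc] at hp₀ w3
    obtain ⟨⟨f1, f1'⟩, r, hr, f2⟩ := fix_eight hθ hα hβ hlat hm j hne
    refine ⟨_, ?_, f2⟩
    apply mul_neg_of_pos_of_neg hr
    apply mul_neg_of_pos_of_neg
    · have hev := PP_even (m := 4 * (M * 7 ^ k)) (by
        have := hm.pos
        omega)
      have e1 : ∏ p ∈ PP (4 * (M * 7 ^ k)), (j - J2 (β / α * p.1 / p.2)) =
          ∏ p ∈ PP (4 * (M * 7 ^ k)), (J2 (β / α * p.1 / p.2) - j) := by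
        have e2 : ∀ p : ℕ × ℕ, j - J2 (β / α * p.1 / p.2) = -(J2 (β / α * p.1 / p.2) - j) := by
          intro p
          ring
        simp_rw [e2]
        rw [Finset.prod_neg, hev.neg_one_pow, one_mul]
      rw [e1]
      apply Finset.prod_pos
      intro p hp
      have := J2_ge (hpos hp)
      linarith
    · refine neg_one_prod (PP (2 * (M * 7 ^ k))) (fun p => j - J1 (β / α * p.1 / p.2)) hp₀ ?_ ?_
      · have := h3 _ w1 w2
        rw [max_inv (fun y hy => J1_inv hy) (hpos hp₀)] at this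
        simpa using this
      · intro p hp hpp
        have h5 := h4 _ (w3 p hp hpp)
        rw [max_inv (fun y hy => J1_inv hy) (hpos hp)] at h5
        have h6 := f1' p hp
        have : J1 (β / α * p.1 / p.2) < j := lt_of_le_of_ne h5 h6
        simpa using this
  · obtain ⟨ylo, yhi, h1, h2, h3, h4⟩ := win_top J2_cont J2_lim (j := j) (by rw [J2_one]; exact hgt)
    refine ⟨4 * (Real.sqrt 3 * ylo), 4 * (Real.sqrt 3 * yhi), by nlinarith,
      mul_lt_mul_of_pos_left (mul_lt_mul_of_pos_left h2 hs3) (by norm_num), ?_⟩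
    intro M k hM h7 h11 hlo hhi hne
    have hM0 : (0 : ℝ) < M := by exact_mod_cast hM.pos
    have hM1 : 1 < M := lt_of_lt_of_le (by norm_num) (Nat.le_of_dvd hM.pos h11)
    have hm : Odd (M * 7 ^ k) := hM.mul (Odd.pow (by decide))
    have h74 : ¬ 7 ∣ 4 * M := by omega
    have hdiv : (7 : ℝ) ^ k / ((4 * M : ℕ) : ℝ) = 7 ^ k / (M : ℝ) / 4 := by
      push_cast
      field_simp
    obtain ⟨p₀, hp₀, ⟨w1, w2⟩, w3⟩ := comb hτ h1 (yhi := yhi) (M := 4 * M) (k := k) (by omega) h74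
      (by rw [hdiv]; linarith) (by rw [hdiv]; linarith)
    rw [mul_assoc] at hp₀ w3
    obtain ⟨⟨f1, f1'⟩, r, hr, f2⟩ := fix_eight hθ hα hβ hlat hm j hne
    refine ⟨_, ?_, f2⟩
    apply mul_neg_of_pos_of_neg hr
    apply mul_neg_of_neg_of_pos
    · refine neg_even_prod (PP (4 * (M * 7 ^ k))) (PP_even (by
        have := hm.pos
        omega)) (fun p => j - J2 (β / α * p.1 / p.2)) hp₀ ?_ ?_
      · have := h3 _ w1 w2
        rw [max_inv (fun y hy => J2_inv hy) (hpos hp₀)] at this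
        simpa using this
      · intro p hp hpp
        have h5 := h4 _ (w3 p hp hpp)
        rw [max_inv (fun y hy => J2_inv hy) (hpos hp)] at h5
        have h6 := f1 p hp
        have : j < J2 (β / α * p.1 / p.2) := lt_of_le_of_ne h5 h6.symm
        simpa using this
    · apply Finset.prod_pos
      intro p hp
      have := J1_le (hpos hp)
      linarith

end LT
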