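import Pool.Agent.Lib_MP_f1937f_nt.Core
import Pool.Agent.Lib_MP_f1937f_r8.Sign
import Pool.Agent.Lib_MP_f1937f_r8.Res

/-!
# MP_f1937f_nt: many supersingular primes with prescribed residue conditions
-/

namespace LT

open Polynomial WeierstrassCurve

namespace R8

open Classical in
/-- The supersingular primes `p ≤ X` with `(d / p) = sgn d` for all `0 < |d| ≤ D`. -/
noncomputable def SSD (W : WeierstrassCurve ℤ) (D X : ℕ) : Finset ℕ := (SS W X).filter (Good D)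

theorem mem_SSD {W : WeierstrassCurve ℤ} {D X p : ℕ} :
    p ∈ SSD W D X ↔ p ≤ X ∧ p.Prime ∧ ¬ (p : ℤ) ∣ W.Δ ∧ affCount W p = p ∧ Good D p := by
  classical
  rw [SSD, Finset.mem_filter, SS, Finset.mem_filter, Finset.mem_range]
  constructor
  · rintro ⟨⟨h1, h2, h3, h4⟩, h5⟩
    exact ⟨by omega, h2, h3, h4, h5⟩
  · rintro ⟨h1, h2, h3, h4, h5⟩
    exact ⟨⟨by omega, h2, h3, h4⟩, h5⟩

/-- One modulus gives one supersingular prime, which is not killed by the modulus. -/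
theorem core_zero (W : WeierstrassCurve ℤ) (hΔ : W.Δ ≠ 0) (hCM : NoCM W) :
    ∃ (lo hi C : ℝ), 1 ≤ lo ∧ lo < hi ∧ 0 < C ∧
      ∀ M k : ℕ, Odd M → ¬ 3 ∣ M → ¬ 7 ∣ M → 11 ∣ M →
      lo < 7 ^ k / (M : ℝ) → 7 ^ k / (M : ℝ) < hi →
      (∀ p : ℕ, p.Prime → p % 3 = 2 → (p ∈ badW W ∨ p ∣ 2 * M) → KilledBy p M) →
      ∃ (p : ℕ) (_ : Fact p.Prime), 5 ≤ p ∧ p % 3 = 2 ∧ p % 8 = 7 ∧ ¬ KilledBy p (8 * (M * 7 ^ k)) ∧
        p ∉ badW W ∧ ¬ p ∣ 8 * (M * 7 ^ k) ∧ affCount W p = p ∧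
        Real.log p ≤ C * ((8 * (M * 7 ^ k) : ℕ) : ℝ) ^ 3 ∧
        ∃ L : AddSubgroup (Pt (0 : Fb p) (-31 / 4)), RedL p (8 * (M * 7 ^ k)) (jW W) L := by
  obtain ⟨hc0, hc1⟩ := noCM_ne hΔ hCM
  have hj1728 : ((jW W : ℚ) : ℝ) ≠ 1728 := by
    intro h0
    have h1 : jW W = 1728 := by exact_mod_cast h0
    have h2 := jW_eq hΔ
    rw [h1] at h2
    exact hc1 (by exact_mod_cast h2)
  obtain ⟨lo, hi, hlo, hlh, hsign⟩ := sign_eight ((jW W : ℚ) : ℝ) hj1728
  obtain ⟨C, hC, hsize⟩ := size_bound (jW W)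
  refine ⟨lo, hi, C, hlo, hlh, hC, ?_⟩
  intro M k hMo hM3 hM7 hM11 hw1 hw2 hkill
  have hM : 0 < M := hMo.pos
  obtain ⟨n, hn⟩ : ∃ n : ℕ, n = 8 * (M * 7 ^ k) := ⟨_, rfl⟩
  rw [← hn]
  have hn0 : 0 < n := by rw [hn]; positivity
  -- the rational number `N`
  obtain ⟨N, hN⟩ := NN_rat (jW W) hn0
  have hjC : ((((jW W : ℚ) : ℝ)) : ℂ) = ((jW W : ℚ) : ℂ) := by norm_cast
  have hNneg : N < 0 := by
    obtain ⟨r, hr, hNr⟩ := hsign M k hMo hM7 hM11 hw1 hw2
      (by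
        rw [← hn, hjC]
        exact jL_ne hΔ hCM hn0)
    rw [← hn, hjC, hN ℂ] at hNr
    have h1 : ((N : ℝ) : ℂ) = (r : ℂ) := by
      rw [← hNr]
      norm_cast
    have h2 : (N : ℝ) = r := by exact_mod_cast h1
    have h3 : (N : ℝ) < 0 := by rw [h2]; exact hr
    exact_mod_cast h3
  have hN0 : N ≠ 0 := hNneg.ne
  have cast_eq : ∀ (p : ℕ) [Fact p.Prime] (a b : ℚ_[p]),
      NN (PadicAlgCl p) ((jW W : ℚ) : PadicAlgCl p) n =
        algebraMap ℚ_[p] (PadicAlgCl p) (a ^ 2 + 3 * b ^ 2) → (N : ℚ_[p]) = a ^ 2 + 3 * b ^ 2 := by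
    intro p _ a b hab
    rw [hN (PadicAlgCl p)] at hab
    apply (algebraMap ℚ_[p] (PadicAlgCl p)).injective
    rw [← hab, map_ratCast]
  -- the prime `p`
  obtain ⟨p, hp, hp3, hodd⟩ : ∃ p : ℕ, p.Prime ∧ p % 3 = 2 ∧ Odd (padicValRat p N) := by
    obtain ⟨a, b, hab⟩ := norm_three hn0 (n := n) (by
      rw [hn]
      exact Dvd.dvd.mul_left (Dvd.dvd.mul_right hM11 _) _) (jW W)
    exact rec_three hNneg (cast_eq 3 a b hab)
  have hpf : Fact p.Prime := ⟨hp⟩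
  -- it is not killed
  have hnk : ¬ KilledBy p n := by
    intro hk
    obtain ⟨a, b, hab⟩ := norm_kill hp3 hn0 hk (jW W)
    have := norm_even hp3 hN0 (cast_eq p a b hab)
    exact (Int.not_even_iff_odd.2 hodd) this
  have hnk' : ¬ KilledBy p M := by
    rintro ⟨q, h1, h2, h3, h4⟩
    exact hnk ⟨q, h1, by
      rw [hn]
      exact Dvd.dvd.mul_left (Dvd.dvd.mul_right h2 _) _, h3, h4⟩
  have hpB : p ∉ badW W := fun h1 => hnk' (hkill p hp hp3 (Or.inl h1))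
  have hpM : ¬ p ∣ 2 * M := fun h1 => hnk' (hkill p hp hp3 (Or.inr h1))
  have hp2 : ¬ p ∣ 2 := fun h1 => hpM (Dvd.dvd.mul_right h1 _)
  have hp5 : 5 ≤ p := by
    have h1 := hp.two_le
    have h2 : p ≠ 2 := fun h0 => hp2 (by rw [h0])
    have h3 : p ≠ 3 := by omega
    have h4 : p ≠ 4 := by
      rintro rfl
      exact absurd hp (by norm_num)
    omega
  have hpn : ¬ p ∣ n := by
    rw [hn]
    intro h0
    rcases hp.dvd_mul.1 h0 with h2 | h2
    · exact hp2 (hp.dvd_of_dvd_pow (show p ∣ 2 ^ 3 from h2))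
    · rcases hp.dvd_mul.1 h2 with h3 | h3
      · exact hpM (Dvd.dvd.mul_left h3 _)
      · have h4 := (Nat.prime_dvd_prime_iff_eq hp (by norm_num)).1 (hp.dvd_of_dvd_pow h3)
        omega
  obtain ⟨hb1, hb2, hb3⟩ := badW_not hΔ hCM hp hpB
  have hjv := jW_val hΔ hb1 hc0
  obtain ⟨hpos, L, hL⟩ := local_main hp5 hp3 hn0 hpn hjv (hN (PadicAlgCl p)) hodd
  have haff := ss_of_red hp5 hp3 hn0 hpn W (jW_eq hΔ) hb1 hL
  have hlog := hsize p n hn0 hp5 hpn hjv N hN0 (hN (PadicAlgCl p)) hpos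
  have h8 : p % 8 = 7 := eight_mod hp5 hp3 hn0 (by rw [hn]; exact Dvd.intro _ rfl) hL
  exact ⟨p, hpf, hp5, hp3, h8, hnk, hpB, hpn, haff, hlog, L, hL⟩

/-- One modulus gives one new supersingular prime. -/
theorem core_one (W : WeierstrassCurve ℤ) (hΔ : W.Δ ≠ 0) (hCM : NoCM W) (D : ℕ) :
    ∃ (lo hi C : ℝ), 1 ≤ lo ∧ lo < hi ∧ 0 < C ∧
      ∀ Y M k m : ℕ, 0 < M → Odd M → ¬ 3 ∣ M → ¬ 7 ∣ M →
      (∀ q : ℕ, q.Prime → q ≠ 2 → q ≠ 3 → q ≠ 7 → q ≤ D → q ∣ M) →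
      (∀ p : ℕ, p.Prime → p % 3 = 2 → (p ∈ SSD W D Y ∨ p ∈ badW W ∨ p ∣ 22 * M) → KilledBy p M) →
      (∃ b, 21 ∣ b ∧ 21 ≤ b ∧ m = b ^ 2 + b + 1) →
      lo < 7 ^ k / ((11 * M * m : ℕ) : ℝ) → 7 ^ k / ((11 * M * m : ℕ) : ℝ) < hi →
      ∀ X : ℕ, Real.exp (C * ((8 * (11 * M * 7 ^ k) * m : ℕ) : ℝ) ^ 3) ≤ X →
      ∃ (p : ℕ) (_ : Fact p.Prime), 5 ≤ p ∧ p % 3 = 2 ∧ ¬ p ∣ 8 * (11 * M * 7 ^ k) * m ∧
        p ∈ SSD W D X ∧ Y < p ∧ p ∉ badW W ∧
        ∃ L : AddSubgroup (Pt (0 : Fb p) (-31 / 4)), RedL p (8 * (11 * M * 7 ^ k) * m) (jW W) L := by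
  obtain ⟨lo, hi, C, hlo, hlh, hC, H⟩ := core_zero W hΔ hCM
  refine ⟨lo, hi, C, hlo, hlh, hC, ?_⟩
  intro Y M k m hM hMo hM3 hM7 hD hkill hm hw1 hw2 X hX
  obtain ⟨b, hb21, hb, hmb⟩ := hm
  obtain ⟨t, rfl⟩ := hb21
  have hm1 : m % 2 = 1 := by
    rw [hmb]
    have : (21 * t) ^ 2 + 21 * t + 1 = (21 * t) * (21 * t + 1) + 1 := by ring
    rw [this]
    have h2 : (21 * t) * (21 * t + 1) % 2 = 0 := by
      rcases Nat.even_or_odd (21 * t) with h4 | h4
      · exact Nat.even_iff.1 (h4.mul_right _)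
      · exact Nat.even_iff.1 ((h4.add_one).mul_left _)
    omega
  have hm21 : m % 21 = 1 := by
    rw [hmb]
    have : (21 * t) ^ 2 + 21 * t + 1 = 21 * (21 * t ^ 2 + t) + 1 := by ring
    rw [this]
    omega
  have hm3 : ¬ 3 ∣ m := by omega
  have hm7 : ¬ 7 ∣ m := by omega
  have kill_mono : ∀ p : ℕ, KilledBy p M → KilledBy p (11 * M * m) := by
    rintro p ⟨q, h1, h2, h3, h4⟩
    exact ⟨q, h1, Dvd.dvd.mul_right (Dvd.dvd.mul_left h2 _) _, h3, h4⟩
  have hn' : 8 * (11 * M * m * 7 ^ k) = 8 * (11 * M * 7 ^ k) * m := by ring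
  obtain ⟨p, hpf, hp5, hp3, hp8, hnk, hpB, hpn, haff, hlog, L, hL⟩ := H (11 * M * m) k
      (by
        rw [Nat.odd_mul, Nat.odd_mul]
        exact ⟨⟨by decide, hMo⟩, Nat.odd_iff.2 hm1⟩)
      (by
        intro h0
        rcases (Nat.Prime.dvd_mul Nat.prime_three).1 h0 with h1 | h1
        · rcases (Nat.Prime.dvd_mul Nat.prime_three).1 h1 with h2 | h2
          · omega
          · exact hM3 h2
        · exact hm3 h1)
      (by
        have h7 : Nat.Prime 7 := by norm_num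
        intro h0
        rcases (Nat.Prime.dvd_mul h7).1 h0 with h1 | h1
        · rcases (Nat.Prime.dvd_mul h7).1 h1 with h2 | h2
          · omega
          · exact hM7 h2
        · exact hm7 h1)
      (Dvd.intro (M * m) (by ring)) hw1 hw2
      (by
        intro p hp hp3 hor
        apply kill_mono
        apply hkill p hp hp3
        rcases hor with h1 | h1
        · exact Or.inr (Or.inl h1)
        · right
          right
          rcases hp.dvd_mul.1 h1 with h2 | h2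
          · exact Dvd.dvd.mul_right (h2.trans (by norm_num)) _
          · rcases hp.dvd_mul.1 h2 with h3 | h3
            · rcases hp.dvd_mul.1 h3 with h4 | h4
              · exact Dvd.dvd.mul_right (h4.trans (by norm_num)) _
              · exact Dvd.dvd.mul_left h4 _
            · rw [hmb] at h3
              exact absurd h3 (gap_prime hp hp3))
  have hp := hpf.out
  have hnkM : ¬ KilledBy p M := by
    intro h0
    obtain ⟨q, h1, h2, h3, h4⟩ := kill_mono p h0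
    exact hnk ⟨q, h1, Dvd.dvd.mul_left (Dvd.dvd.mul_right h2 _) _, h3, h4⟩
  have hk0 : k ≠ 0 := by
    rintro rfl
    have h1 : (1 : ℝ) ≤ ((11 * M * m : ℕ) : ℝ) := by
      have : 1 ≤ 11 * M * m := Nat.mul_pos (by omega) (by omega)
      exact_mod_cast this
    have h2 : (7 : ℝ) ^ 0 / ((11 * M * m : ℕ) : ℝ) ≤ 1 := by
      rw [pow_zero, div_le_one (by linarith)]
      exact h1
    linarith
  have hgood : Good D p := by
    apply good_of hp hp8
    intro q hq hq2 hqD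
    rcases eq_or_ne q 3 with rfl | hq3
    · have h1 : ((-(p : ℤ)) : ℤ) % (3 : ℕ) = 1 % (3 : ℕ) := by
        push_cast
        omega
      rw [jacobiSym.mod_left' h1]
      exact jacobiSym.one_left 3
    · -- `q` divides `n`
      have hqn : q ∣ 8 * (11 * M * m * 7 ^ k) := by
        rcases eq_or_ne q 7 with rfl | hq7
        · exact Dvd.dvd.mul_left (Dvd.dvd.mul_left (dvd_pow_self 7 hk0) _) _
        · exact Dvd.dvd.mul_left (Dvd.dvd.mul_right (Dvd.dvd.mul_right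
            (Dvd.dvd.mul_left (hD q hq hq2 hq3 hq7 hqD) _) _) _) _
      have h1 : jacobiSym (-(p : ℤ)) q ≠ -1 := fun h0 => hnk ⟨q, hq, hqn, hq2, h0⟩
      have hcop : Int.gcd (-(p : ℤ)) q = 1 := by
        have hne : p ≠ q := by
          rintro rfl
          exact hpn hqn
        have h0 : Nat.gcd p q = 1 := (Nat.coprime_primes hp hq).2 hne
        rw [Int.gcd_def, Int.natAbs_neg, Int.natAbs_natCast, Int.natAbs_natCast]
        exact h0
      rcases jacobiSym.eq_one_or_neg_one hcop with h2 | h2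
      · exact h2
      · exact absurd h2 h1
  rw [hn'] at hpn hlog hL
  obtain ⟨hb1, -, -⟩ := badW_not hΔ hCM hp hpB
  have hpX : p ≤ X := by
    have h1 : (p : ℝ) ≤ X := by
      have hp0 : (0 : ℝ) < p := by exact_mod_cast hp.pos
      calc (p : ℝ) = Real.exp (Real.log p) := (Real.exp_log hp0).symm
        _ ≤ Real.exp (C * ((8 * (11 * M * 7 ^ k) * m : ℕ) : ℝ) ^ 3) := Real.exp_le_exp.2 hlog
        _ ≤ X := hX
    exact_mod_cast h1
  have hmem : ∀ Z : ℕ, p ≤ Z → p ∈ SSD W D Z := fun Z hZ =>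
    mem_SSD.2 ⟨hZ, hp, hb1, haff, hgood⟩
  refine ⟨p, hpf, hp5, hp3, hpn, hmem X hpX, ?_, hpB, L, hL⟩
  by_contra hcon
  push Not at hcon
  exact hnkM (hkill p hp hp3 (Or.inl (hmem Y hcon)))

open Real in
theorem core_two (W : WeierstrassCurve ℤ) (hΔ : W.Δ ≠ 0) (hCM : NoCM W) (D : ℕ) :
    ∃ (C : ℝ), 0 < C ∧ ∃ Y₀ : ℕ, ∀ Y : ℕ, Y₀ ≤ Y → ∀ M : ℕ, 0 < M → Odd M →
      ¬ 3 ∣ M → ¬ 7 ∣ M →
      (∀ q : ℕ, q.Prime → q ≠ 2 → q ≠ 3 → q ≠ 7 → q ≤ D → q ∣ M) →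
      (∀ p : ℕ, p.Prime → p % 3 = 2 → (p ∈ SSD W D Y ∨ p ∈ badW W ∨ p ∣ 22 * M) → KilledBy p M) →
      ∀ X : ℕ, exp (C * ((M : ℝ) * Y) ^ 6) ≤ X →
        (Y : ℝ) ^ ((1 : ℝ) / 4) ≤ C * 2 ^ M.primeFactors.card * log Y * (SSD W D X).card := by
  obtain ⟨hc0, hc1⟩ := noCM_ne hΔ hCM
  obtain ⟨lo, hi, C, hlo1, hlh, hC, hprime⟩ := core_one W hΔ hCM D
  have hlo : 0 < lo := by linarith
  obtain ⟨hi', hhi'⟩ : ∃ hi' : ℝ, hi' = min hi (4 * lo) := ⟨_, rfl⟩
  have hlh' : lo < hi' := by rw [hhi']; exact lt_min hlh (by linarith)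
  have hhi'0 : 0 < hi' := hlo.trans hlh'
  obtain ⟨c, hc, Y₁, hwin⟩ := window hlo hlh'
  refine ⟨C * (61 * hi') ^ 3 + 144 / c, by positivity, 16 * Y₁ + 64, ?_⟩
  intro Y hY M hM hMo hM3 hM7 hD hkill X hX
  obtain ⟨k, T, hTc, hT⟩ := hwin (Y / 16) (by omega) (11 * M) (by omega)
  have hY3 : (3 : ℝ) ≤ Y := by
    have : 3 ≤ Y := by omega
    exact_mod_cast this
  have hM1 : (1 : ℝ) ≤ M := by exact_mod_cast hM
  obtain ⟨hd0, hd4, hd3, hdc⟩ := core_d (h := 2) (k := k) (Or.inr rfl) hM hMo hM3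
  obtain ⟨d, hd⟩ : ∃ d : ℕ, d = 2 * (11 * M * 7 ^ k) := ⟨_, rfl⟩
  rw [← hd] at hd0 hd4 hd3 hdc
  have hdm : ∀ m : ℕ, 8 * (11 * M * 7 ^ k) * m = d * (4 * m) := by
    intro m
    rw [hd]
    ring
  have hTm : ∀ m ∈ T, 4 * (4 * m) * (4 * m) ≤ Y := by
    intro m hm
    obtain ⟨-, h1, -, -⟩ := hT m hm
    have h2 : 16 * (4 * m * m) ≤ 16 * (Y / 16) := Nat.mul_le_mul_left _ h1
    have h3 : 16 * (Y / 16) ≤ Y := Nat.mul_div_le Y 16
    calc 4 * (4 * m) * (4 * m) = 16 * (4 * m * m) := by ring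
      _ ≤ Y := h2.trans h3
  -- the prime attached to `m`
  have key : ∀ m ∈ T, ∃ p : ℕ, ∃ _ : Fact p.Prime, 5 ≤ p ∧ p % 3 = 2 ∧ ¬ p ∣ d * (4 * m) ∧
        p ∈ SSD W D X ∧ Y < p ∧ p ∉ badW W ∧
        ∃ L : AddSubgroup (Pt (0 : Fb p) (-31 / 4)), RedL p (d * (4 * m)) (jW W) L := by
    intro m hm
    obtain ⟨hmb, hmY, hw1, hw2⟩ := hT m hm
    rw [← hdm m]
    apply hprime Y M k m hM hMo hM3 hM7 hD hkill hmb hw1
      (hw2.trans_le (by rw [hhi']; exact min_le_left _ _)) X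
    refine le_trans (exp_le_exp.2 ?_) hX
    rw [hdm m]
    -- the size of `n = 4 d m`
    have hm0 : 0 < m := by
      obtain ⟨b, -, -, rfl⟩ := hmb
      omega
    have hm1 : (1 : ℝ) ≤ m := by exact_mod_cast hm0
    have hmY' : (4 * (4 * m) * (4 * m) : ℝ) ≤ Y := by exact_mod_cast hTm m hm
    have h7 : (7 : ℝ) ^ k ≤ hi' * (11 * M * m) := by
      rw [div_lt_iff₀ (by push_cast; positivity)] at hw2
      push_cast at hw2
      exact hw2.le
    have hn : ((d * (4 * m) : ℕ) : ℝ) ≤ 61 * hi' * M ^ 2 * Y := by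
      rw [hd]
      push_cast
      calc (2 : ℝ) * (11 * M * 7 ^ k) * (4 * m) ≤ 2 * (11 * M * (hi' * (11 * M * m))) * (4 * m) := by
            gcongr
        _ = 15.125 * hi' * M ^ 2 * (4 * (4 * m) * (4 * m)) := by ring
        _ ≤ 15.125 * hi' * M ^ 2 * Y := by gcongr
        _ ≤ 61 * hi' * M ^ 2 * Y := by gcongr; norm_num
    have hY1 : (1 : ℝ) ≤ Y := by linarith
    calc C * ((d * (4 * m) : ℕ) : ℝ) ^ 3 ≤ C * (61 * hi' * M ^ 2 * Y) ^ 3 := by gcongr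
      _ = C * (61 * hi') ^ 3 * ((M : ℝ) ^ 6 * Y ^ 3) := by ring
      _ ≤ C * (61 * hi') ^ 3 * ((M : ℝ) ^ 6 * Y ^ 6) := by
          have : (Y : ℝ) ^ 3 ≤ Y ^ 6 := pow_le_pow_right₀ hY1 (by norm_num)
          gcongr
      _ = C * (61 * hi') ^ 3 * ((M : ℝ) * Y) ^ 6 := by ring
      _ ≤ (C * (61 * hi') ^ 3 + 144 / c) * ((M : ℝ) * Y) ^ 6 := by
          have : 0 ≤ 144 / c := by positivity
          gcongr
          linarith
  choose! P hP using key
  -- every prime serves few `m`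
  have hfib : ∀ p ∈ SSD W D X, (T.filter (fun m => P m = p)).card ≤
      48 * 2 ^ M.primeFactors.card := by
    intro p hp
    by_cases hne : (T.filter (fun m => P m = p)).Nonempty
    · obtain ⟨m₀, hm₀⟩ := hne
      rw [Finset.mem_filter] at hm₀
      obtain ⟨hm₀T, hm₀p⟩ := hm₀
      obtain ⟨hpf, hp5, hp3, hpn, hpX, hpY, hpB, -⟩ := hP m₀ hm₀T
      subst hm₀p
      obtain ⟨hb1, hb2, hb3⟩ := badW_not hΔ hCM hpf.out hpB
      obtain ⟨hj0, hj1⟩ := jW_ne hb1 hb2 hb3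
      have hsb := serve_bound hp5 hp3 hd0 hd4 hd3 (jW_val hΔ hb1 hc0) hj0 hj1
        ((T.filter (fun m => P m = P m₀)).image (fun m => 4 * m)) (by
          intro m' hm'
          rw [Finset.mem_image] at hm'
          obtain ⟨m, hm, rfl⟩ := hm'
          rw [Finset.mem_filter] at hm
          obtain ⟨hmT, hmp⟩ := hm
          obtain ⟨hmb, -, -, -⟩ := hT m hmT
          have hmY := hTm m hmT
          obtain ⟨hpf', -, -, hpn', -, hpY', -, L, hL⟩ := hP m hmT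
          refine ⟨?_, ?_, ?_, ?_⟩
          · obtain ⟨b, -, -, rfl⟩ := hmb
            omega
          · omega
          · rw [← hmp]
            exact hpn'
          · exact red_transport hmp ⟨hpf', L, hL⟩) 1 (by
          intro B hB hsq
          -- pull back to `T`
          obtain ⟨B', hB'⟩ : ∃ B' : Finset ℕ, B' = T.filter (fun m => 4 * m ∈ B) := ⟨_, rfl⟩
          have hBB : B ⊆ B'.image (fun m => 4 * m) := by
            intro x hx
            have h1 := hB hx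
            rw [Finset.mem_image] at h1
            obtain ⟨m, hm, rfl⟩ := h1
            rw [Finset.mem_image]
            refine ⟨m, ?_, rfl⟩
            rw [hB', Finset.mem_filter]
            exact ⟨(Finset.mem_filter.1 hm).1, hx⟩
          refine (Finset.card_le_card hBB).trans (Finset.card_image_le.trans ?_)
          apply window_square hlo (by rw [hhi']; exact min_le_right hi (4 * lo)) (M := 11 * M)
            (k := k) (by omega) (T := T) (fun m hm => ⟨(hT m hm).1, (hT m hm).2.2⟩) B'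
            (by rw [hB']; exact Finset.filter_subset _ _)
          intro x hx y hy
          rw [hB', Finset.mem_filter] at hx hy
          obtain ⟨z, hz⟩ := hsq _ hx.2 _ hy.2
          have h16 : 4 * 4 * (x * y) = z * z := by rw [← hz]; ring
          have h4 : 4 ∣ z := by
            have h1 : 4 ^ 2 ∣ z ^ 2 := ⟨x * y, by rw [sq z, ← h16]; ring⟩
            exact (Nat.pow_dvd_pow_iff two_ne_zero).1 h1
          obtain ⟨w, rfl⟩ := h4
          refine ⟨w, ?_⟩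
          have : 4 * 4 * (x * y) = 4 * 4 * (w * w) := by rw [h16]; ring
          exact Nat.eq_of_mul_eq_mul_left (by norm_num) this)
      rw [Finset.card_image_of_injective _ (fun x y h => by
        have h' : 4 * x = 4 * y := h
        omega)] at hsb
      refine hsb.trans ?_
      have h1 : 2 ^ d.primeFactors.card ≤ 2 ^ (M.primeFactors.card + 3) :=
        Nat.pow_le_pow_right (by norm_num) hdc
      rw [pow_add] at h1
      omega
    · rw [Finset.not_nonempty_iff_eq_empty] at hne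
      rw [hne]
      simp
  have hcard := Finset.card_le_mul_card_image_of_maps_to (f := P) (s := T) (t := SSD W D X)
    (fun m hm => by
      obtain ⟨-, -, -, -, h1, -⟩ := hP m hm
      exact h1) (48 * 2 ^ M.primeFactors.card) hfib
  have hcard' : (T.card : ℝ) ≤ 48 * 2 ^ M.primeFactors.card * (SSD W D X).card := by
    exact_mod_cast hcard
  have hlog : 1 ≤ log Y := by
    rw [le_log_iff_exp_le (by linarith)]
    have := exp_one_lt_d9
    linarith
  -- `Y^(1/4) ≤ 3 (Y / 16)^(1/4)`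
  have hYY : (Y : ℝ) ^ ((1 : ℝ) / 4) ≤ 3 * ((Y / 16 : ℕ) : ℝ) ^ ((1 : ℝ) / 4) := by
    have h1 : (Y : ℝ) ≤ 81 * ((Y / 16 : ℕ) : ℝ) := by
      have : Y ≤ 81 * (Y / 16) := by omega
      exact_mod_cast this
    have h81 : (81 : ℝ) ^ ((1 : ℝ) / 4) = 3 := by
      rw [show (81 : ℝ) = 3 ^ (4 : ℝ) by norm_num, ← rpow_mul (by norm_num)]
      norm_num
    calc (Y : ℝ) ^ ((1 : ℝ) / 4) ≤ (81 * ((Y / 16 : ℕ) : ℝ)) ^ ((1 : ℝ) / 4) :=
          rpow_le_rpow (by linarith) h1 (by norm_num)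
      _ = 3 * ((Y / 16 : ℕ) : ℝ) ^ ((1 : ℝ) / 4) := by
          rw [mul_rpow (by norm_num) (Nat.cast_nonneg _), h81]
  have hcY : (Y : ℝ) ^ ((1 : ℝ) / 4) ≤ 144 / c * 2 ^ M.primeFactors.card * (SSD W D X).card := by
    have h1 := hTc.trans hcard'
    rw [div_mul_eq_mul_div, div_mul_eq_mul_div, le_div_iff₀ hc]
    have h2 : (Y : ℝ) ^ ((1 : ℝ) / 4) * c ≤ 3 * ((Y / 16 : ℕ) : ℝ) ^ ((1 : ℝ) / 4) * c :=
      mul_le_mul_of_nonneg_right hYY hc.le
    linarith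
  refine hcY.trans ?_
  have h2 : 0 ≤ 144 / c * 2 ^ M.primeFactors.card * ((SSD W D X).card : ℝ) := by positivity
  calc 144 / c * 2 ^ M.primeFactors.card * ((SSD W D X).card : ℝ)
      ≤ 144 / c * 2 ^ M.primeFactors.card * ((SSD W D X).card : ℝ) * log Y := by nlinarith
    _ = 144 / c * 2 ^ M.primeFactors.card * log Y * ((SSD W D X).card : ℝ) := by ring
    _ ≤ (C * (61 * hi') ^ 3 + 144 / c) * 2 ^ M.primeFactors.card * log Y *
        (SSD W D X).card := by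
        have h3 : 0 ≤ C * (61 * hi') ^ 3 := by positivity
        gcongr
        linarith

end R8

end LT
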