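import Pool.Agent.Lib_MP_f1937f_r8.Core
import Pool.Agent.Lib_MP_f1937f_nt.Final

/-!
# MP_f1937f_nt: supersingular primes with prescribed residues, the final count
-/

namespace LT

namespace R8

open Polynomial WeierstrassCurve

theorem SSD_mono (W : WeierstrassCurve ℤ) (D : ℕ) {m n : ℕ} (h : m ≤ n) :
    SSD W D m ⊆ SSD W D n := by
  intro p hp
  rw [mem_SSD] at hp ⊢
  exact ⟨hp.1.trans h, hp.2⟩

/-- The product of the primes `q ≤ D` other than `2, 3, 7`. -/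
noncomputable def PD (D : ℕ) : ℕ :=
  ∏ q ∈ (Finset.range (D + 1)).filter (fun q => q.Prime ∧ q ≠ 2 ∧ q ≠ 3 ∧ q ≠ 7), q

theorem PD_pos (D : ℕ) : 0 < PD D := by
  apply Finset.prod_pos
  intro q hq
  exact (Finset.mem_filter.1 hq).2.1.pos

theorem dvd_PD {D q : ℕ} (hq : q.Prime) (h2 : q ≠ 2) (h3 : q ≠ 3) (h7 : q ≠ 7) (hD : q ≤ D) :
    q ∣ PD D := by
  apply Finset.dvd_prod_of_mem (fun q : ℕ => q)
  rw [Finset.mem_filter, Finset.mem_range]
  exact ⟨by omega, hq, h2, h3, h7⟩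

theorem of_dvd_PD {D p : ℕ} (hp : p.Prime) (h : p ∣ PD D) : p ≤ D ∧ p ≠ 2 ∧ p ≠ 3 ∧ p ≠ 7 := by
  rw [PD, hp.prime.dvd_finsetProd_iff] at h
  obtain ⟨q, hq, hpq⟩ := h
  rw [Finset.mem_filter, Finset.mem_range] at hq
  obtain ⟨hq1, hq2, h3⟩ := hq
  have h4 : p = q := (Nat.prime_dvd_prime_iff_eq hp hq2).1 hpq
  subst h4
  exact ⟨by omega, h3⟩

theorem killed_mono {p M N : ℕ} (h : M ∣ N) (hk : KilledBy p M) : KilledBy p N := by
  obtain ⟨q, h1, h2, h3⟩ := hk
  exact ⟨q, h1, h2.trans h, h3⟩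

open Real in
theorem core_three (W : WeierstrassCurve ℤ) (hΔ : W.Δ ≠ 0) (hCM : NoCM W) (D : ℕ) :
    ∃ (B : Finset ℕ) (C : ℝ), 0 < C ∧ ∃ Y₀ : ℕ, ∀ Y : ℕ, Y₀ ≤ Y → ∀ M : ℕ, 0 < M → Odd M →
      ¬ 3 ∣ M → ¬ 7 ∣ M →
      (∀ p : ℕ, p.Prime → p % 3 = 2 → (p ∈ SSD W D Y ∨ p ∈ B ∨ p ∣ 22 * M) → KilledBy p M) →
      ∀ X : ℕ, exp (C * ((M : ℝ) * Y) ^ 6) ≤ X →
        (Y : ℝ) ^ ((1 : ℝ) / 4) ≤ C * 2 ^ M.primeFactors.card * log Y * (SSD W D X).card := by
  obtain ⟨C, hC, Y₀, H⟩ := core_two W hΔ hCM D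
  refine ⟨badW W ∪ Finset.range (D + 1), C * (PD D : ℝ) ^ 6 + C * 2 ^ (PD D).primeFactors.card,
    by positivity, Y₀ + 1, ?_⟩
  intro Y hY M hM hMo hM3 hM7 hkill X hX
  have hP0 := PD_pos D
  have hodd : Odd (M * PD D) := by
    rw [← Nat.not_even_iff_odd, even_iff_two_dvd, Nat.prime_two.dvd_mul]
    rintro (h | h)
    · exact (Nat.not_even_iff_odd.2 hMo) (even_iff_two_dvd.2 h)
    · exact (of_dvd_PD Nat.prime_two h).2.1 rfl
  have h3 : ¬ 3 ∣ M * PD D := by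
    rw [Nat.prime_three.dvd_mul]
    rintro (h | h)
    · exact hM3 h
    · exact (of_dvd_PD Nat.prime_three h).2.2.1 rfl
  have h7 : ¬ 7 ∣ M * PD D := by
    have h7p : Nat.Prime 7 := by norm_num
    rw [h7p.dvd_mul]
    rintro (h | h)
    · exact hM7 h
    · exact (of_dvd_PD h7p h).2.2.2 rfl
  have hX' : exp (C * (((M * PD D : ℕ) : ℝ) * Y) ^ 6) ≤ X := by
    refine le_trans (exp_le_exp.2 ?_) hX
    have h1 : C * (((M * PD D : ℕ) : ℝ) * Y) ^ 6 = (C * (PD D : ℝ) ^ 6) * ((M : ℝ) * Y) ^ 6 := by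
      push_cast
      ring
    rw [h1]
    have h2 : (0 : ℝ) ≤ C * 2 ^ (PD D).primeFactors.card := by positivity
    gcongr
    linarith
  have h1 := H Y (by omega) (M * PD D) (Nat.mul_pos hM hP0) hodd h3 h7
    (fun q hq h2 h3 h7 hqD => Dvd.dvd.mul_left (dvd_PD hq h2 h3 h7 hqD) _)
    (fun p hp hp3 h => by
      apply killed_mono (Dvd.intro _ rfl : M ∣ M * PD D)
      apply hkill p hp hp3
      rcases h with h | h | h
      · exact Or.inl h
      · exact Or.inr (Or.inl (Finset.mem_union_left _ h))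
      · rw [← mul_assoc, hp.dvd_mul] at h
        rcases h with h | h
        · exact Or.inr (Or.inr h)
        · refine Or.inr (Or.inl (Finset.mem_union_right _ ?_))
          rw [Finset.mem_range]
          have := (of_dvd_PD hp h).1
          omega) X hX'
  have hY1 : (1 : ℝ) ≤ Y := by
    have : 1 ≤ Y := by omega
    exact_mod_cast this
  have hlog : 0 ≤ log (Y : ℝ) := log_nonneg hY1
  have hω : (M * PD D).primeFactors.card ≤ M.primeFactors.card + (PD D).primeFactors.card := by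
    rw [Nat.primeFactors_mul hM.ne' hP0.ne']
    exact Finset.card_union_le _ _
  refine h1.trans ?_
  have h2 : (2 : ℝ) ^ (M * PD D).primeFactors.card ≤
      2 ^ M.primeFactors.card * 2 ^ (PD D).primeFactors.card := by
    rw [← pow_add]
    exact pow_le_pow_right₀ (by norm_num) hω
  have h4 : (0 : ℝ) ≤ C * (PD D : ℝ) ^ 6 := by positivity
  calc C * 2 ^ (M * PD D).primeFactors.card * log Y * (SSD W D X).card
      ≤ C * (2 ^ M.primeFactors.card * 2 ^ (PD D).primeFactors.card) * log Y *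
        (SSD W D X).card := by gcongr
    _ = (C * 2 ^ (PD D).primeFactors.card) * 2 ^ M.primeFactors.card * log Y *
        (SSD W D X).card := by ring
    _ ≤ _ := by
        gcongr
        linarith

open Real in
/-- The main theorem for supersingular primes with prescribed residues. -/
theorem main_eight (W : WeierstrassCurve ℤ) (hΔ : W.Δ ≠ 0) (hCM : NoCM W) (D : ℕ) :
    ∃ c : ℝ, 0 < c ∧ ∃ x₀ : ℝ, ∀ x : ℝ, x₀ ≤ x →
      exp (c * log (log x) / (log (log (log x))) ^ 2) ≤ ((SSD W D ⌊x⌋₊).card : ℝ) := by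
  obtain ⟨B, C₀, hC₀, Y₁, hcore⟩ := core_three W hΔ hCM D
  obtain ⟨C₁, hC₁, Y₂, hcov⟩ := cover_main B
  obtain ⟨Y₃, hasym⟩ := fin_asym C₀
  refine fin_real (fun x => ((SSD W D ⌊x⌋₊).card : ℝ)) ?_ (C := 6 * C₁ + 6 + C₀ + 1) (c := 1 / 1000)
    (by positivity) (by norm_num) (Y₁ + Y₂ + Y₃ + 3) ?_
  · intro x y hxy
    have h1 := Finset.card_le_card (SSD_mono W D (Nat.floor_le_floor hxy))
    change ((SSD W D ⌊x⌋₊).card : ℝ) ≤ ((SSD W D ⌊y⌋₊).card : ℝ)
    exact_mod_cast h1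
  · intro Y hY
    obtain ⟨hl, hL, hC⟩ := hasym Y (by omega)
    have hY3 : (3 : ℝ) ≤ Y := by
      have : 3 ≤ Y := by omega
      exact_mod_cast this
    have hY0 : (0 : ℝ) < Y := by linarith
    set L := log (Y : ℝ) with hLdef
    set l := log L with hldef
    have hl2 : 1 ≤ l ^ 2 := one_le_pow₀ hl
    have hLl : L ≤ L * l ^ 2 := by nlinarith
    have hLl1 : 1 ≤ L * l ^ 2 := by linarith
    set E : ℝ := exp ((6 * C₁ + 6 + C₀ + 1) * L * l ^ 2) with hE
    by_cases hcard : ((SSD W D Y).card : ℝ) ≤ (Y : ℝ) ^ ((1 : ℝ) / 1000)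
    · obtain ⟨M, hM, hMo, hM3, hM7, hkill, hMlog, hMω⟩ := hcov Y (by omega) (SSD W D Y)
        (fun p hp => by
          have hp' := mem_SSD.1 hp
          exact ⟨hp'.2.1, hp'.1⟩) hcard
      have hM1 : (1 : ℝ) ≤ M := by exact_mod_cast hM
      have hM0 : (0 : ℝ) < M := by linarith
      -- the size condition
      have hMY : ((M : ℝ) * Y) ^ 6 ≤ exp ((6 * C₁ + 6) * (L * l ^ 2)) := by
        have h1 : log (((M : ℝ) * Y) ^ 6) = 6 * (log M + L) := by
          rw [log_pow, log_mul hM0.ne' hY0.ne', hLdef]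
          norm_num
        rw [← exp_log (show (0 : ℝ) < ((M : ℝ) * Y) ^ 6 by positivity), h1]
        apply exp_le_exp.2
        have h2 : log M ≤ C₁ * (L * l ^ 2) := by linarith
        linarith
      have hMY1 : 1 ≤ ((M : ℝ) * Y) ^ 6 := by
        apply one_le_pow₀
        nlinarith
      have hX1 : C₀ * ((M : ℝ) * Y) ^ 6 + 1 ≤ E := by
        have h1 : E = exp ((6 * C₁ + 6) * (L * l ^ 2)) * exp ((C₀ + 1) * (L * l ^ 2)) := by
          rw [hE, ← exp_add]
          congr 1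
          ring
        have h2 : C₀ + 1 ≤ exp ((C₀ + 1) * (L * l ^ 2)) := by
          have h3 := add_one_le_exp ((C₀ + 1) * (L * l ^ 2))
          have h4 : (C₀ + 1) * 1 ≤ (C₀ + 1) * (L * l ^ 2) := by gcongr
          linarith
        rw [h1]
        calc C₀ * ((M : ℝ) * Y) ^ 6 + 1 ≤ ((M : ℝ) * Y) ^ 6 * (C₀ + 1) := by linarith
          _ ≤ _ := by gcongr
      have hX2 : exp (C₀ * ((M : ℝ) * Y) ^ 6) ≤ (⌊exp E⌋₊ : ℝ) := by
        have h1 : exp E < (⌊exp E⌋₊ : ℝ) + 1 := Nat.lt_floor_add_one _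
        have h2 : exp (C₀ * ((M : ℝ) * Y) ^ 6) + 1 ≤ exp E := by
          have h3 : exp (C₀ * ((M : ℝ) * Y) ^ 6) * exp 1 ≤ exp E := by
            rw [← exp_add]
            exact exp_le_exp.2 hX1
          have h4 : (2 : ℝ) ≤ exp 1 := by
            have := add_one_le_exp (1 : ℝ)
            linarith
          have h5 : 1 ≤ exp (C₀ * ((M : ℝ) * Y) ^ 6) := one_le_exp (by positivity)
          nlinarith
        linarith
      have h1 := hcore Y (by omega) M hM hMo hM3 hM7 hkill ⌊exp E⌋₊ hX2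
      change (Y : ℝ) ^ ((1 : ℝ) / 1000) ≤ ((SSD W D ⌊exp E⌋₊).card : ℝ)
      set F : ℝ := ((SSD W D ⌊exp E⌋₊).card : ℝ) with hF
      have hF0 : 0 ≤ F := Nat.cast_nonneg _
      have h2 : (Y : ℝ) ^ ((1 : ℝ) / 4) ≤ (Y : ℝ) ^ ((1 : ℝ) / 8) * (Y : ℝ) ^ ((1 : ℝ) / 16) * F := by
        calc (Y : ℝ) ^ ((1 : ℝ) / 4) ≤ C₀ * 2 ^ M.primeFactors.card * L * F := h1
          _ = (C₀ * L) * 2 ^ M.primeFactors.card * F := by ring
          _ ≤ _ := by gcongr
      have h3 : (Y : ℝ) ^ ((1 : ℝ) / 4) =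
          (Y : ℝ) ^ ((1 : ℝ) / 8) * (Y : ℝ) ^ ((1 : ℝ) / 16) * (Y : ℝ) ^ ((1 : ℝ) / 16) := by
        rw [← rpow_add hY0, ← rpow_add hY0]
        norm_num
      rw [h3] at h2
      have h4 : (Y : ℝ) ^ ((1 : ℝ) / 16) ≤ F := by
        apply le_of_mul_le_mul_left h2
        positivity
      refine le_trans ?_ h4
      apply rpow_le_rpow_of_exponent_le (by linarith)
      norm_num
    · push Not at hcard
      refine hcard.le.trans ?_
      have hle : Y ≤ ⌊exp E⌋₊ := by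
        apply Nat.le_floor
        rw [← exp_log hY0]
        apply exp_le_exp.2
        have h1 : L + 1 ≤ exp L := add_one_le_exp L
        have h2 : exp L ≤ E := by
          apply exp_le_exp.2
          have h3 : 1 * (L * l ^ 2) ≤ (6 * C₁ + 6 + C₀ + 1) * (L * l ^ 2) := by
            gcongr
            linarith
          linarith
        linarith
      have h1 := Finset.card_le_card (SSD_mono W D hle)
      exact_mod_cast h1

end R8

end LT
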